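import Mathlib
import Pool.Agent.Helper91.MC.SVX

/-!
MP_4042d8_co, row X_H3: facts on 3-hubs.
-/

namespace Pool.Agent.Helper35.MC

open Pool.Agent.Helper27.MC Pool.Agent.Helper51.MC Pool.Agent.Helper88.MC Pool.Agent.Helper64.MC
open Pool.Agent.Helper91.MC

set_option autoImplicit false
set_option linter.unusedSectionVars false
set_option linter.unusedSimpArgs false
set_option linter.unusedVariables false

/-- three pairwise non-mated neighbours of type `S` of an `A`-vertex `a`: a further true neighbour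
`p` of `s1` is of type `A` and not adjacent to `s2` -/
theorem hub_aux {V : Type} [Fintype V] [DecidableEq V] {G : SimpleGraph V} [DecidableRel G.Adj]
    (hG : G.IsRegularOfDegree 3) {c : V → Bool} {j : ℕ} (hj : 1 ≤ j) (hO : Opt G c j)
    {a s1 s2 s3 p : V} (ha : tA G c a) (t1 : tS G c s1) (t2 : tS G c s2) (t3 : tS G c s3)
    (a1 : G.Adj a s1) (a2 : G.Adj a s2) (a3 : G.Adj a s3) (n12 : s1 ≠ s2) (n13 : s1 ≠ s3)
    (n23 : s2 ≠ s3) (r12 : ¬ Rm G c s1 s2) (r13 : ¬ Rm G c s1 s3) (r23 : ¬ Rm G c s2 s3)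
    (cp : c p = true) (hpa : a ≠ p) (hp : G.Adj s1 p) : tA G c p ∧ ¬ G.Adj s2 p := by
  have m1 : s1 ≠ p := hp.ne
  have m2 : s2 ≠ p := by rintro rfl; rw [t2.1] at cp; cases cp
  have m3 : s3 ≠ p := by rintro rfl; rw [t3.1] at cp; cases cp
  have h := Ppos hG hO [a, s1, s2, s3, p]
    (by simp [a1.ne, a2.ne, a3.ne, n12, n13, n23, hpa, m1, m2, m3]) 1
    (by simp [dl_cons, dl_nil, ha.1, t1.1, t2.1, t3.1, cp]) (by exact_mod_cast hj)
  simp only [cl_cons, cl_nil, List.map_cons, List.map_nil, List.sum_cons, List.sum_nil, ha.2, t1.2,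
    t2.2, t3.2] at h
  have e1 : sf G c a s1 = 1 := sf_adj a1 (by rw [ha.1, t1.1]; decide)
  have e2 : sf G c a s2 = 1 := sf_adj a2 (by rw [ha.1, t2.1]; decide)
  have e3 : sf G c a s3 = 1 := sf_adj a3 (by rw [ha.1, t3.1]; decide)
  have e4 : 0 ≤ sf G c a p := sf_nrm (nomate ha.2 p)
  have e5 : 0 ≤ sf G c s1 s2 := sf_nrm r12
  have e6 : 0 ≤ sf G c s1 s3 := sf_nrm r13
  have e7 : 0 ≤ sf G c s2 s3 := sf_nrm r23
  have e8 : sf G c s1 p = 1 := sf_adj hp (by rw [t1.1, cp]; decide)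
  have e9 : 0 ≤ sf G c s2 p := sf_ge (by rw [t2.1, cp]; decide)
  have e10 : 0 ≤ sf G c s3 p := sf_ge (by rw [t3.1, cp]; decide)
  rw [e1, e2, e3, e8] at h
  push_cast at h
  constructor
  · refine ⟨cp, ?_⟩
    by_contra hne
    have h1 : (1 : ℤ) ≤ (mu G c p : ℤ) := by
      have : 1 ≤ mu G c p := by omega
      exact_mod_cast this
    linarith
  · intro h2
    have e11 : sf G c s2 p = 1 := sf_adj h2 (by rw [t2.1, cp]; decide)
    have h1 : (0 : ℤ) ≤ (mu G c p : ℤ) := by positivity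
    linarith

/-- row X_H3 -/
theorem st_H3 : ST_H3 := by
  intro V _ _ G _ hG c j hj hO a s1 s2 s3 v1 v2 v3 p1 p2 p3 hub
  have hm := hO.mu1
  have ha : tA G c a := ⟨hub.av.ca, av_mu hub.av⟩
  have t1 := sv_tS hm hub.h1
  have t2 := sv_tS hm hub.h2
  have t3 := sv_tS hm hub.h3
  have a1 : G.Adj a s1 := (hub.av.n3.nb s1).2 (by simp)
  have a2 : G.Adj a s2 := (hub.av.n3.nb s2).2 (by simp)
  have a3 : G.Adj a s3 := (hub.av.n3.nb s3).2 (by simp)
  have n12 := hub.av.n3.xy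
  have n13 := hub.av.n3.xz
  have n23 := hub.av.n3.yz
  have r12 := hub.n12
  have r13 := hub.n13
  have r23 := hub.n23
  have r21 : ¬ Rm G c s2 s1 := fun h => r12 h.symm
  have r31 : ¬ Rm G c s3 s1 := fun h => r13 h.symm
  have r32 : ¬ Rm G c s3 s2 := fun h => r23 h.symm
  have q1 : G.Adj s1 p1 := (hub.h1.n3.nb p1).2 (by simp)
  have q2 : G.Adj s2 p2 := (hub.h2.n3.nb p2).2 (by simp)
  have q3 : G.Adj s3 p3 := (hub.h3.n3.nb p3).2 (by simp)
  have A1 := hub_aux hG hj hO ha t1 t2 t3 a1 a2 a3 n12 n13 n23 r12 r13 r23 hub.h1.cb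
    hub.h1.n3.yz q1
  have A2 := hub_aux hG hj hO ha t2 t3 t1 a2 a3 a1 n23 n12.symm n13.symm r23 r21 r31 hub.h2.cb
    hub.h2.n3.yz q2
  have A3 := hub_aux hG hj hO ha t3 t1 t2 a3 a1 a2 n13.symm n23.symm n12 r31 r32 r12 hub.h3.cb
    hub.h3.n3.yz q3
  refine ⟨⟨A1.1, A2.1, A3.1⟩, ?_, ?_, ?_⟩
  · rintro rfl
    exact A1.2 q2
  · rintro rfl
    exact A3.2 q1
  · rintro rfl
    exact A2.2 q3

end Pool.Agent.Helper35.MC
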