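import Mathlib
import Pool.Agent.Helper64.MC.St1

/-!
MP_4042d8_co: vertices outside a flipped set; the neighbours of a free vertex.
-/

namespace Pool.Agent.Helper35.MC

open Pool.Agent.Helper27.MC Pool.Agent.Helper51.MC Pool.Agent.Helper88.MC Pool.Agent.Helper64.MC

set_option autoImplicit false
set_option linter.unusedSectionVars false
set_option linter.unusedSimpArgs false
set_option linter.unusedVariables false

section

variable {V : Type} [Fintype V] [DecidableEq V] {G : SimpleGraph V} [DecidableRel G.Adj]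

/-- a vertex outside `X` whose neighbours in `X` have its colour -/
theorem out_le {c : V → Bool} (hm : ∀ v, mu G c v ≤ 1) {X : Finset V} {v : V} (hv : v ∉ X)
    (h : ∀ x ∈ X, G.Adj v x → c x = c v) : mu G (flp c X) v ≤ 1 := by
  refine (mu_mono fun w hw => ?_).trans (hm v)
  rcases (rm_out hv w).1 hw with h1 | ⟨h1, h2, h3⟩
  · exact h1.2
  · exact absurd (h w h1 h2) h3

/-- the neighbours of a free vertex -/
theorem free_nb (hG : G.IsRegularOfDegree 3) {c : V → Bool} (hm : ∀ v, mu G c v ≤ 1) {s : V}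
    (hs : s ∈ Pool.Agent.Helper64.MC.Fr G c) : ∃ m p q, Sv G c s m p q ∧ mu G c p = 0 ∧ mu G c q = 0 := by
  unfold Pool.Agent.Helper64.MC.Fr at hs
  simp only [Finset.mem_filter, Finset.mem_univ, true_and] at hs
  obtain ⟨⟨cs, ms⟩, h0⟩ := hs
  obtain ⟨m, p, q, h1, h2, h3, nb, cm, cp, cq⟩ := (NB V G hG c s).1 ms
  unfold nQ at h0
  rw [Finset.card_eq_zero, Finset.filter_eq_empty_iff] at h0
  have key : ∀ x, G.Adj s x → c x = true → mu G c x = 0 := by
    intro x hx cx
    have := h0 (Finset.mem_univ x)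
    have hmx := hm x
    by_contra hne
    exact this ⟨hx, cx, by omega⟩
  have cp' : c p = true := by rw [cp, cs]; rfl
  have cq' : c q = true := by rw [cq, cs]; rfl
  refine ⟨m, p, q, ⟨cs, by rw [cm, cs], cp', cq', ⟨nb, h1, h2, h3⟩⟩, key p ?_ cp', key q ?_ cq'⟩
  · rw [nb]; simp
  · rw [nb]; simp

end

end Pool.Agent.Helper35.MC
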