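import Mathlib
import Pool.Agent.Helper35.MC.Ob
import Pool.Agent.Helper91.MC.SVX

/-!
MP_4042d8_co, row E_UA (unit of E6 (a), with `s ≠ t'`).
-/

namespace Pool.Agent.Helper35.MC

open Pool.Agent.Helper27.MC
open Pool.Agent.Helper51.MC Pool.Agent.Helper88.MC Pool.Agent.Helper64.MC
open Pool.Agent.Helper91.MC

set_option autoImplicit false
set_option linter.unusedSectionVars false
set_option linter.unusedSimpArgs false
set_option linter.unusedVariables false

/-- the unit of E6 (a): after the flip of `{u, a, t, k, s}`: pairs `{u,b}`, `{t,q}` (true),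
`{a,t'}` (false), false path `g k g'`, true path `y s y'`. -/
theorem ua_of {V : Type} [Fintype V] [DecidableEq V] (G : SimpleGraph V) [DecidableRel G.Adj]
    (hG : G.IsRegularOfDegree 3) (c : V → Bool) (hm : ∀ v, mu G c v ≤ 1)
    (u m a b t t' q k g g' s : V) (hu : Sv G c u m a b) (hb : tA G c b) (ha : Av G c a u t t')
    (ht : Sv G c t t' a q) (hqk : Rm G c q k) (hk : N3 G k q g g') (gt : g ≠ t') (gt' : g' ≠ t')
    (hg : ∀ w, Rm G c g w → w = u) (hg' : ∀ w, Rm G c g' w → w = u) (hs : s ∈ Fr G c)
    (su : s ≠ u) (sm : s ≠ m) (st' : s ≠ t') (hsb : ¬ G.Adj s b) :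
    ∃ T, Blk G c {u, a, t, k, s} T := by
  obtain ⟨ms, y, y', ns, cs, cms, cy, cy', hyy, my, my'⟩ := fr_data hG hm hs
  have ma : mu G c a = 0 := av_mu ha
  obtain ⟨cu, cm, ca, cb, ⟨nu, hma, hmb, hab⟩⟩ := hu
  obtain ⟨-, mb⟩ := hb
  obtain ⟨-, -, ct, ct', ⟨na, hut, hut', htt'⟩⟩ := ha
  obtain ⟨-, -, -, cq, ⟨nt, ht'a, ht'q, haq⟩⟩ := ht
  obtain ⟨nk, hqg, hqg', hgg'⟩ := hk
  have hna : ∀ x, ¬ Rm G c a x := nomate ma
  have hnb : ∀ x, ¬ Rm G c b x := nomate mb
  have hny : ∀ x, ¬ Rm G c y x := nomate my
  have hny' : ∀ x, ¬ Rm G c y' x := nomate my'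
  have hR : ∀ x y, Rm G c x y ↔ (G.Adj x y ∧ c y = c x) := fun _ _ => Iff.rfl
  have hsym : ∀ x y, G.Adj x y ↔ G.Adj y x := fun x y => G.adj_comm x y
  have hirr : ∀ x, ¬ G.Adj x x := fun x => G.loopless.irrefl x
  have ck : c k = true := by rw [hqk.2, cq]
  have kq : ∀ x, Rm G c k x ↔ x = q := fun x =>
    ⟨fun h => rm_uniq (hm k) h hqk.symm, fun h => h ▸ hqk.symm⟩
  have qk : ∀ x, Rm G c q x ↔ x = k := fun x =>
    ⟨fun h => rm_uniq (hm q) h hqk, fun h => h ▸ hqk⟩
  have hka : k ≠ a := by rintro rfl; exact hna q hqk.symm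
  have hkb : k ≠ b := by rintro rfl; exact hnb q hqk.symm
  have hky : k ≠ y := by rintro rfl; exact hny q hqk.symm
  have hky' : k ≠ y' := by rintro rfl; exact hny' q hqk.symm
  have hqb : q ≠ b := by rintro rfl; exact hnb k hqk
  have hqy : q ≠ y := by rintro rfl; exact hny k hqk
  have hqy' : q ≠ y' := by rintro rfl; exact hny' k hqk
  have hqk' : q ≠ k := hqk.ne
  have cg : c g = false := by
    cases h : c g
    · rfl
    · exact absurd ((kq g).1 ((hR k g).2 ⟨(nk g).2 (by simp), by rw [h, ck]⟩)) hqg.symm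
  have cg' : c g' = false := by
    cases h : c g'
    · rfl
    · exact absurd ((kq g').1 ((hR k g').2 ⟨(nk g').2 (by simp), by rw [h, ck]⟩)) hqg'.symm
  have rum : Rm G c u m := (hR u m).2 ⟨(nu m).2 (Or.inl rfl), by rw [cu, cm]⟩
  have rtt : Rm G c t t' := (hR t t').2 ⟨(nt t').2 (Or.inl rfl), by rw [ct, ct']⟩
  have rss : Rm G c s ms := (hR s ms).2 ⟨(ns ms).2 (Or.inl rfl), by rw [cs, cms]⟩
  have t't : ∀ x, Rm G c t' x ↔ x = t := fun x =>
    ⟨fun h => rm_uniq (hm t') h rtt.symm, fun h => h ▸ rtt.symm⟩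
  have hst : s ≠ t := by
    rintro rfl
    rcases (ns q).1 ((nt q).2 (by simp)) with h | h | h
    · rw [h, cms] at cq; cases cq
    · exact hqy h
    · exact hqy' h
  have hmt : m ≠ t := by
    rintro rfl
    exact hut' (rm_uniq (hm m) rum.symm rtt)
  have hmsu : ms ≠ u := by
    rintro rfl
    exact sm (rm_uniq (hm ms) rss.symm rum)
  have hmst : ms ≠ t := by
    rintro rfl
    exact st' (rm_uniq (hm ms) rss.symm rtt)
  have hsa : ¬ G.Adj s a := by rw [hsym, na]; rintro (h | h | h); exacts [su h, hst h, st' h]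
  have hya : y ≠ a := by rintro rfl; exact hsa ((ns y).2 (by simp))
  have hya' : y' ≠ a := by rintro rfl; exact hsa ((ns y').2 (by simp))
  have hyb : y ≠ b := by rintro rfl; exact hsb ((ns y).2 (by simp))
  have hyb' : y' ≠ b := by rintro rfl; exact hsb ((ns y').2 (by simp))
  have nks : ¬ G.Adj k s := by
    rw [hsym, ns]
    rintro (h | h | h)
    · rw [h, cms] at ck; cases ck
    · exact hky h
    · exact hky' h
  have nku : ¬ G.Adj k u := by
    rw [hsym, nu]
    rintro (h | h | h)
    · rw [h, cm] at ck; cases ck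
    · exact hka h
    · exact hkb h
  have nkt : ¬ G.Adj k t := by
    rw [hsym, nt]
    rintro (h | h | h)
    · rw [h, ct'] at ck; cases ck
    · exact hka h
    · exact hqk' h.symm
  have hgs : g ≠ s := by rintro rfl; exact nks ((nk g).2 (by simp))
  have hgs' : g' ≠ s := by rintro rfl; exact nks ((nk g').2 (by simp))
  have hgu : g ≠ u := by rintro rfl; exact nku ((nk g).2 (by simp))
  have hgu' : g' ≠ u := by rintro rfl; exact nku ((nk g').2 (by simp))
  have hgt : g ≠ t := by rintro rfl; exact nkt ((nk g).2 (by simp))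
  have hgt' : g' ≠ t := by rintro rfl; exact nkt ((nk g').2 (by simp))
  have nqu : ¬ G.Adj q u := by
    rw [hsym, nu]
    rintro (h | h | h)
    · rw [h, cm] at cq; cases cq
    · exact haq h.symm
    · exact hqb h
  have nqs : ¬ G.Adj q s := by
    rw [hsym, ns]
    rintro (h | h | h)
    · rw [h, cms] at cq; cases cq
    · exact hqy h
    · exact hqy' h
  have hua : u ≠ a := by rintro rfl; rw [cu] at ca; cases ca
  have huk : u ≠ k := by rintro rfl; rw [cu] at ck; cases ck
  have hat : a ≠ t := by rintro rfl; rw [ct] at ca; cases ca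
  have has : a ≠ s := by rintro rfl; rw [cs] at ca; cases ca
  have htk : t ≠ k := by rintro rfl; rw [ct] at ck; cases ck
  have hks : k ≠ s := by rintro rfl; rw [cs] at ck; cases ck
  have dX : dd c ({u, a, t, k, s} : Finset V) = 1 := by
    unfold dd
    rw [Finset.sum_insert (by simp [hua, hut, huk, su.symm]),
      Finset.sum_insert (by simp [hat, hka.symm, has]),
      Finset.sum_insert (by simp [htk, hst.symm]), Finset.sum_insert (by simp [hks]),
      Finset.sum_singleton]
    simp [cu, ct, ca, ck, cs]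
  have yX : y ∉ ({u, a, t, k, s} : Finset V) := by
    simp only [Finset.mem_insert, Finset.mem_singleton]; grind
  have yX' : y' ∉ ({u, a, t, k, s} : Finset V) := by
    simp only [Finset.mem_insert, Finset.mem_singleton]; grind
  have gX : g ∉ ({u, a, t, k, s} : Finset V) := by
    simp only [Finset.mem_insert, Finset.mem_singleton]; grind
  have gX' : g' ∉ ({u, a, t, k, s} : Finset V) := by
    simp only [Finset.mem_insert, Finset.mem_singleton]; grind
  have Ry : ∀ x, Rm G (flp c {u, a, t, k, s}) y x ↔ x = s := by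
    intro x
    rw [rm_out yX]
    simp only [Finset.mem_insert, Finset.mem_singleton]
    grind
  have Ry' : ∀ x, Rm G (flp c {u, a, t, k, s}) y' x ↔ x = s := by
    intro x
    rw [rm_out yX']
    simp only [Finset.mem_insert, Finset.mem_singleton]
    grind
  have Rs : ∀ x, Rm G (flp c {u, a, t, k, s}) s x ↔ x = y ∨ x = y' := by
    intro x
    rw [rm_in (by simp), hR]
    simp only [Finset.mem_insert, Finset.mem_singleton]
    grind
  have Rg : ∀ x, Rm G (flp c {u, a, t, k, s}) g x ↔ x = k := by
    intro x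
    rw [rm_out gX]
    simp only [Finset.mem_insert, Finset.mem_singleton]
    grind
  have Rg' : ∀ x, Rm G (flp c {u, a, t, k, s}) g' x ↔ x = k := by
    intro x
    rw [rm_out gX']
    simp only [Finset.mem_insert, Finset.mem_singleton]
    grind
  have Rk : ∀ x, Rm G (flp c {u, a, t, k, s}) k x ↔ x = g ∨ x = g' := by
    intro x
    rw [rm_in (by simp), kq]
    simp only [Finset.mem_insert, Finset.mem_singleton]
    grind
  have cy1 : flp c {u, a, t, k, s} y = true := by rw [flp_not yX, cy]
  have cg1 : flp c {u, a, t, k, s} g = false := by rw [flp_not gX, cg]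
  refine ⟨Finset.univ, Blk.of2 (Finset.subset_univ _) dX (comp3 hyy cy1 Ry Rs Ry')
    (comp3 hgg' cg1 Rg Rk Rg') (fun _ => Finset.mem_univ _) (fun _ => Finset.mem_univ _) ?_⟩
  intro v h1 h2
  have v1 : v ≠ y := h1 0
  have v2 : v ≠ s := h1 1
  have v3 : v ≠ y' := h1 2
  have v4 : v ≠ g := h2 0
  have v5 : v ≠ k := h2 1
  have v6 : v ≠ g' := h2 2
  by_cases vu : v = u
  · subst vu
    refine mu_le_one (z := b) ?_
    intro x
    rw [rm_in (by simp), hR]
    simp only [Finset.mem_insert, Finset.mem_singleton]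
    grind
  by_cases va : v = a
  · subst va
    refine mu_le_one (z := t') ?_
    intro x
    rw [rm_in (by simp), hR]
    simp only [Finset.mem_insert, Finset.mem_singleton]
    grind
  by_cases vt : v = t
  · subst vt
    refine mu_le_one (z := q) ?_
    intro x
    rw [rm_in (by simp), hR]
    simp only [Finset.mem_insert, Finset.mem_singleton]
    grind
  have vX : v ∉ ({u, a, t, k, s} : Finset V) := by
    simp only [Finset.mem_insert, Finset.mem_singleton]; grind
  by_cases vb : v = b
  · subst vb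
    refine mu_le_one (z := u) ?_
    intro x
    rw [rm_out vX]
    simp only [Finset.mem_insert, Finset.mem_singleton]
    grind
  by_cases vt' : v = t'
  · subst vt'
    refine mu_le_one (z := a) ?_
    intro x
    rw [rm_out vX, t't]
    simp only [Finset.mem_insert, Finset.mem_singleton]
    grind
  by_cases vq : v = q
  · subst vq
    refine mu_le_one (z := t) ?_
    intro x
    rw [rm_out vX, qk]
    simp only [Finset.mem_insert, Finset.mem_singleton]
    grind
  refine out_le hm vX ?_
  simp only [Finset.mem_insert, Finset.mem_singleton]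
  intro x hx hvx
  have hxv := (hsym v x).1 hvx
  rcases hx with rfl | rfl | rfl | rfl | rfl
  · rcases (nu v).1 hxv with h | h | h
    · rw [h, cu, cm]
    · exact absurd h va
    · exact absurd h vb
  · rcases (na v).1 hxv with h | h | h
    · exact absurd h vu
    · exact absurd h vt
    · exact absurd h vt'
  · rcases (nt v).1 hxv with h | h | h
    · rw [h, ct, ct']
    · exact absurd h va
    · exact absurd h vq
  · rcases (nk v).1 hxv with h | h | h
    · exact absurd h vq
    · exact absurd h v4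
    · exact absurd h v6
  · rcases (ns v).1 hxv with h | h | h
    · rw [h, cs, cms]
    · exact absurd h v1
    · exact absurd h v3

end Pool.Agent.Helper35.MC
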