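import Mathlib
import Pool.Agent.Helper27.MC.Base2
import Pool.Agent.Helper51.MC.FLIP

/-!
MP_4042d8_co, row F3: two free nonadjacent vertices at an `A`-vertex whose third neighbour is of
type `B` have a second common neighbour.  The flip of `{a, s1, s2}` does not change the potential.
-/

namespace Pool.Agent.Helper35.MC

open Pool.Agent.Helper27.MC Pool.Agent.Helper51.MC

set_option autoImplicit false
set_option linter.unusedSectionVars false
set_option linter.unusedSimpArgs false

section

variable {V : Type} [Fintype V] [DecidableEq V] {G : SimpleGraph V} [DecidableRel G.Adj]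

theorem sg3 (c : V → Bool) {a s1 s2 : V} (h1 : a ≠ s1) (h2 : a ≠ s2) (h3 : s1 ≠ s2) (v : V) :
    sg G c {a, s1, s2} v = sf G c v a + sf G c v s1 + sf G c v s2 := by
  unfold sg
  rw [Finset.sum_insert (by simp [h1, h2]), Finset.sum_insert (by simp [h3]),
    Finset.sum_singleton]
  unfold sf
  ring

theorem sf_no {c : V → Bool} {v y : V} (h : ¬ G.Adj v y) : sf G c v y = 0 := by
  unfold sf
  simp [h]

theorem sf_cut {c : V → Bool} {v y : V} (h : G.Adj v y) (h2 : c y ≠ c v) : sf G c v y = 1 := by
  unfold sf
  simp [h, h2]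

theorem sf_mono {c : V → Bool} {v y : V} (h2 : c y = c v) : sf G c v y ≤ 0 := by
  unfold sf
  by_cases h : G.Adj v y <;> simp [h, h2]

theorem sf_le {c : V → Bool} {v y : V} : sf G c v y ≤ 1 := by
  unfold sf
  by_cases h : G.Adj v y <;> by_cases h2 : c y = c v <;> simp [h, h2]

/-- all neighbours of `v` with the colour of `v` are counted by `mu` -/
theorem mu0_ne {c : V → Bool} {v w : V} (h0 : mu G c v = 0) (h : G.Adj v w) : c w ≠ c v := by
  intro h2
  unfold mu at h0
  rw [Finset.card_eq_zero] at h0
  have : w ∈ Finset.univ.filter (fun w => G.Adj v w ∧ c w = c v) := by simp [h, h2]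
  rw [h0] at this
  simp at this

end

/-- row F3 -/
theorem st_F3 : ST_F3 := by
  intro V _ _ G _ hG c j hO hj a s1 s2 w hA has1 has2 haw h12 hF1 hF2 hB hn
  by_contra hne
  push Not at hne
  obtain ⟨ca, ma⟩ := hA
  obtain ⟨⟨c1, m1⟩, f1⟩ := hF1
  obtain ⟨⟨c2, m2⟩, f2⟩ := hF2
  obtain ⟨cw, mw⟩ := hB
  have ha1 : a ≠ s1 := has1.ne
  have ha2 : a ≠ s2 := has2.ne
  have hw1 : w ≠ s1 := by rintro rfl; omega
  have hw2 : w ≠ s2 := by rintro rfl; omega
  -- the neighbours of `a`
  have hna : ∀ v, G.Adj a v → v = s1 ∨ v = s2 ∨ v = w := by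
    intro v hv
    by_contra hcon
    push Not at hcon
    obtain ⟨e1, e2, e3⟩ := hcon
    have h := hG a
    rw [← SimpleGraph.card_neighborFinset_eq_degree] at h
    have hs : ({v, s1, s2, w} : Finset V) ⊆ G.neighborFinset a := by
      intro x hx
      simp only [Finset.mem_insert, Finset.mem_singleton] at hx
      rw [SimpleGraph.mem_neighborFinset]
      rcases hx with rfl | rfl | rfl | rfl <;> assumption
    have h4 : ({v, s1, s2, w} : Finset V).card = 4 := by
      rw [Finset.card_insert_of_notMem (by simp [e1, e2, e3]),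
        Finset.card_insert_of_notMem (by simp [h12, hw1.symm]),
        Finset.card_insert_of_notMem (by simp [hw2.symm]), Finset.card_singleton]
    have := Finset.card_le_card hs
    omega
  obtain ⟨hZ, hI, hout, hin⟩ := FLIP V G hG c {a, s1, s2}
  have haa : sf G c a a = 0 := sf_no (G.loopless.irrefl a)
  have h11 : sf G c s1 s1 = 0 := sf_no (G.loopless.irrefl s1)
  have h22 : sf G c s2 s2 = 0 := sf_no (G.loopless.irrefl s2)
  have ea1 : sf G c a s1 = 1 := sf_cut has1 (by rw [c1, ca]; decide)
  have ea2 : sf G c a s2 = 1 := sf_cut has2 (by rw [c2, ca]; decide)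
  have e1a : sf G c s1 a = 1 := sf_cut has1.symm (by rw [c1, ca]; decide)
  have e2a : sf G c s2 a = 1 := sf_cut has2.symm (by rw [c2, ca]; decide)
  have e12 : sf G c s1 s2 = 0 := sf_no hn
  have e21 : sf G c s2 s1 = 0 := sf_no (fun h => hn h.symm)
  have sa : sg G c {a, s1, s2} a = 2 := by rw [sg3 c ha1 ha2 h12, haa, ea1, ea2]; norm_num
  have ss1 : sg G c {a, s1, s2} s1 = 1 := by rw [sg3 c ha1 ha2 h12, e1a, h11, e12]; norm_num
  have ss2 : sg G c {a, s1, s2} s2 = 1 := by rw [sg3 c ha1 ha2 h12, e2a, e21, h22]; norm_num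
  have hdd : dd c {a, s1, s2} = 1 := by
    unfold dd
    rw [Finset.sum_insert (by simp [ha1, ha2]), Finset.sum_insert (by simp [h12]),
      Finset.sum_singleton]
    simp [ca, c1, c2]
  have hZ' : ZZ G (flp c {a, s1, s2}) = ZZ G c + 2 := by
    rw [hZ, Finset.sum_insert (by simp [ha1, ha2]), Finset.sum_insert (by simp [h12]),
      Finset.sum_singleton, Finset.sum_insert (by simp [ha1, ha2]),
      Finset.sum_insert (by simp [h12]), Finset.sum_singleton, ma, m1, m2, sa, ss1, ss2]
    push_cast
    ring
  have hI' : imb (flp c {a, s1, s2}) = 2 * (j : ℤ) - 2 := by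
    rw [hI, hdd, hO.imb2]
    ring
  have hj' : (1 : ℤ) ≤ (j : ℤ) := by exact_mod_cast hj
  have habs : |imb (flp c {a, s1, s2})| = 2 * (j : ℤ) - 2 := by
    rw [hI']
    exact abs_of_nonneg (by linarith)
  have hPhi : Phi G (flp c {a, s1, s2}) = Phi G c := by
    unfold Phi
    rw [hZ', habs, hO.imb2, abs_of_nonneg (by linarith)]
    ring
  have hmu : ∀ v, mu G (flp c {a, s1, s2}) v ≤ 1 := by
    intro v
    by_cases hv : v ∈ ({a, s1, s2} : Finset V)
    · have h := hin v hv
      simp only [Finset.mem_insert, Finset.mem_singleton] at hv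
      rcases hv with rfl | rfl | rfl
      · rw [sa, ma] at h
        push_cast at h
        omega
      · rw [ss1, m1] at h
        push_cast at h
        omega
      · rw [ss2, m2] at h
        push_cast at h
        omega
    · have h := hout v hv
      rw [sg3 c ha1 ha2 h12] at h
      have hm := hO.mu1 v
      simp only [Finset.mem_insert, Finset.mem_singleton, not_or] at hv
      obtain ⟨va, v1, v2⟩ := hv
      by_cases cv : c v = true
      · have h0 : sf G c v a ≤ 0 := sf_mono (by rw [ca, cv])
        by_cases g1 : G.Adj v s1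
        · have hn2 : ¬ G.Adj v s2 := hne v va g1
          have hv0 : mu G c v = 0 := (f1 v g1.symm cv).2
          have h2 : sf G c v s2 = 0 := sf_no hn2
          have h1 : sf G c v s1 ≤ 1 := sf_le
          omega
        · have h1 : sf G c v s1 = 0 := sf_no g1
          by_cases g2 : G.Adj v s2
          · have hv0 : mu G c v = 0 := (f2 v g2.symm cv).2
            have h2 : sf G c v s2 ≤ 1 := sf_le
            omega
          · have h2 : sf G c v s2 = 0 := sf_no g2
            omega
      · have cv' : c v = false := by simpa using cv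
        have h1 : sf G c v s1 ≤ 0 := sf_mono (by rw [c1, cv'])
        have h2 : sf G c v s2 ≤ 0 := sf_mono (by rw [c2, cv'])
        by_cases g : G.Adj v a
        · rcases hna v g.symm with rfl | rfl | rfl
          · exact absurd rfl v1
          · exact absurd rfl v2
          · have h0 : sf G c v a ≤ 1 := sf_le
            omega
        · have h0 : sf G c v a = 0 := sf_no g
          omega
  have := hO.imin _ hPhi hmu
  rw [habs] at this
  linarith

end Pool.Agent.Helper35.MC
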