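import Mathlib
import Pool.Agent.Helper33.MC.St
import Pool.Agent.Helper91.MC.Dict
import Pool.Agent.Helper35.MC.Ob
import Pool.Agent.Helper35.MC.F3

/-!
MP_4042d8_co, row D_F3: the square of two free vertices at an `A`-vertex.
-/

namespace Pool.Agent.Helper35.MC

open Pool.Agent.Helper27.MC hiding Fr T1 ter
open Pool.Agent.Helper51.MC Pool.Agent.Helper88.MC Pool.Agent.Helper64.MC
open Pool.Agent.Helper91.MC Pool.Agent.Helper33.MC

set_option autoImplicit false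
set_option linter.unusedSectionVars false
set_option linter.unusedSimpArgs false
set_option linter.unusedVariables false

section

variable {V : Type} [Fintype V] [DecidableEq V] {G : SimpleGraph V} [DecidableRel G.Adj]

/-- `F2` for triangle-free graphs: an `A`-vertex has at most two neighbours of type `S` -/
theorem noS3 (hG : G.IsRegularOfDegree 3) (htf : TF G) {c : V → Bool} {j : ℕ} (hj : 2 ≤ j)
    (hO : Opt G c j) {a s1 s2 s3 : V} (ha : tA G c a) (h1 : tS G c s1) (h2 : tS G c s2)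
    (h3 : tS G c s3) (a1 : G.Adj a s1) (a2 : G.Adj a s2) (a3 : G.Adj a s3) (n12 : s1 ≠ s2)
    (n13 : s1 ≠ s3) (n23 : s2 ≠ s3) : False := by
  have h := Ppos hG hO [a, s1, s2, s3] (by simp [a1.ne, a2.ne, a3.ne, n12, n13, n23]) 2
    (by simp [dl_cons, dl_nil, ha.1, h1.1, h2.1, h3.1]) (by exact_mod_cast hj)
  simp only [cl_cons, cl_nil, List.map_cons, List.map_nil, List.sum_cons, List.sum_nil, ha.2, h1.2,
    h2.2, h3.2] at h
  have e1 : sf G c a s1 = 1 := sf_adj a1 (by rw [ha.1, h1.1]; decide)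
  have e2 : sf G c a s2 = 1 := sf_adj a2 (by rw [ha.1, h2.1]; decide)
  have e3 : sf G c a s3 = 1 := sf_adj a3 (by rw [ha.1, h3.1]; decide)
  have e4 : sf G c s1 s2 = 0 := sf_nadj (fun h => htf a s1 s2 a1 h a2)
  have e5 : sf G c s1 s3 = 0 := sf_nadj (fun h => htf a s1 s3 a1 h a3)
  have e6 : sf G c s2 s3 = 0 := sf_nadj (fun h => htf a s2 s3 a2 h a3)
  rw [e1, e2, e3, e4, e5, e6] at h
  norm_num at h

/-- the neighbours of an `A`-vertex with two given neighbours -/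
theorem av_two (hG : G.IsRegularOfDegree 3) {c : V → Bool} {a s1 s2 : V} (ha : tA G c a)
    (a1 : G.Adj a s1) (a2 : G.Adj a s2) (n12 : s1 ≠ s2) : ∃ w, Av G c a s1 s2 w := by
  obtain ⟨y, z, h⟩ := av_ex hG ha a1
  rcases (h.n3.nb s2).1 a2 with e | e | e
  · exact absurd e.symm n12
  · subst e
    exact ⟨z, h⟩
  · subst e
    exact ⟨y, h.ca, h.cx, h.cz, h.cy, ⟨fun w => (h.n3.nb w).trans (by tauto), h.n3.xz, h.n3.xy,
      h.n3.yz.symm⟩⟩

/-- a free vertex with a given true neighbour -/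
theorem fr_sv (hG : G.IsRegularOfDegree 3) {c : V → Bool} (hm : ∀ v, mu G c v ≤ 1) {s a : V}
    (hs : s ∈ Fr G c) (h : G.Adj a s) (ca : c a = true) :
    ∃ v b, Sv G c s v a b ∧ tA G c b := by
  obtain ⟨v, b, sv⟩ := sv_ex hG (mem_Fr.1 hs).1 h.symm ca
  exact ⟨v, b, sv, ((sv_Fr hm sv).1 hs).2⟩

/-- the two squares -/
theorem sq_of (hG : G.IsRegularOfDegree 3) (htf : TF G) {c : V → Bool} {j : ℕ} (hj : 2 ≤ j)
    (hO : Opt G c j) {a s1 s2 : V} (ha : tA G c a) (h1 : s1 ∈ Fr G c) (h2 : s2 ∈ Fr G c)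
    (n12 : s1 ≠ s2) (a1 : G.Adj a s1) (a2 : G.Adj a s2) : ∃ w, Av G c a s1 s2 w ∧ tB G c w := by
  obtain ⟨w, av⟩ := av_two hG ha a1 a2 n12
  refine ⟨w, av, ?_⟩
  rcases tB_or_tS hO.mu1 av.cz with h | h
  · exact h
  · exact (noS3 hG htf hj hO ha (mem_Fr.1 h1).1 (mem_Fr.1 h2).1 h a1 a2
      ((av.n3.nb w).2 (by simp)) n12 av.n3.xz av.n3.yz).elim

end

/-- row D_F3 -/
theorem st_DF3 : ST_DF3 := by
  intro V _ _ G _ hG htf c j hj hO a s1 s2 ha h1 h2 n12 a1 a2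
  have hm := hO.mu1
  obtain ⟨w1, av, tw1⟩ := sq_of hG htf hj hO ha h1 h2 n12 a1 a2
  have nad : ¬ G.Adj s1 s2 := fun h => htf a s1 s2 a1 h a2
  obtain ⟨b, hba, hb1, hb2⟩ := st_F3 V G hG c j hO (by omega) a s1 s2 w1 ha a1 a2
    ((av.n3.nb w1).2 (by simp)) n12 ((dict_Fr hG hm s1).1 h1) ((dict_Fr hG hm s2).1 h2) tw1 nad
  obtain ⟨v1, b1, sv1, tb1⟩ := fr_sv hG hm h1 a1 ha.1
  obtain ⟨v2, b2, sv2, tb2⟩ := fr_sv hG hm h2 a2 ha.1
  have hbb1 : b = b1 := by
    rcases (sv1.n3.nb b).1 hb1.symm with h | h | h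
    · exfalso
      subst h
      have : Rm G c b s2 := ⟨hb2, by rw [sv2.cs, sv1.cm]⟩
      exact n12 (rm_uniq (hm b) (sv_rm sv1).symm this)
    · exact absurd h hba
    · exact h
  subst hbb1
  have hbb2 : b = b2 := by
    rcases (sv2.n3.nb b).1 hb2.symm with h | h | h
    · exfalso
      have h3 := tb1.1
      rw [h, sv2.cm] at h3
      cases h3
    · exact absurd h hba
    · exact h
  subst hbb2
  obtain ⟨w2, av2, tw2⟩ := sq_of hG htf hj hO tb1 h1 h2 n12 hb1 hb2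
  refine ⟨b, v1, v2, w1, w2, sv1, sv2, av, av2, ha, tb1, tw1, tw2, ?_⟩
  rintro rfl
  -- the set `{s1, s2, a, b, w1}` has cost `-1` and imbalance `1`
  have ts1 := (mem_Fr.1 h1).1
  have ts2 := (mem_Fr.1 h2).1
  have aw : G.Adj a w1 := (av.n3.nb w1).2 (by simp)
  have bw : G.Adj b w1 := (av2.n3.nb w1).2 (by simp)
  have n1w := av.n3.xz
  have n2w := av.n3.yz
  have hP := Ppos hG hO [s1, s2, a, b, w1]
    (by simp [n12, a1.ne.symm, a2.ne.symm, hb1.ne.symm, hb2.ne.symm, n1w, n2w, hba.symm, aw.ne,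
      bw.ne]) 1
    (by simp [dl_cons, dl_nil, ha.1, tb1.1, ts1.1, ts2.1, tw1.1]) (by exact_mod_cast (by omega))
  simp only [cl_cons, cl_nil, List.map_cons, List.map_nil, List.sum_cons, List.sum_nil, ha.2,
    tb1.2, ts1.2, ts2.2, tw1.2] at hP
  have e1 : sf G c s1 s2 = 0 := sf_nadj nad
  have e2 : sf G c s1 a = 1 := sf_adj a1.symm (by rw [ha.1, ts1.1]; decide)
  have e3 : sf G c s1 b = 1 := sf_adj hb1.symm (by rw [tb1.1, ts1.1]; decide)
  have e4 : sf G c s1 w1 = 0 := sf_nadj (fun h => htf a s1 w1 a1 h aw)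
  have e5 : sf G c s2 a = 1 := sf_adj a2.symm (by rw [ha.1, ts2.1]; decide)
  have e6 : sf G c s2 b = 1 := sf_adj hb2.symm (by rw [tb1.1, ts2.1]; decide)
  have e7 : sf G c s2 w1 = 0 := sf_nadj (fun h => htf a s2 w1 a2 h aw)
  have e8 : sf G c a b = 0 := sf_nadj (fun h => htf s1 a b a1.symm h hb1.symm)
  have e9 : sf G c a w1 = 1 := sf_adj aw (by rw [ha.1, tw1.1]; decide)
  have e10 : sf G c b w1 = 1 := sf_adj bw (by rw [tb1.1, tw1.1]; decide)
  rw [e1, e2, e3, e4, e5, e6, e7, e8, e9, e10] at hP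
  norm_num at hP

end Pool.Agent.Helper35.MC
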