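import Mathlib
import Pool.Agent.Helper35.MC.Ob

/-!
MP_4042d8_co: row C1 (a 3-hub).
-/

namespace Pool.Agent.Helper35.MC

open Pool.Agent.Helper27.MC Pool.Agent.Helper51.MC Pool.Agent.Helper88.MC Pool.Agent.Helper64.MC

set_option autoImplicit false
set_option linter.unusedSectionVars false
set_option linter.unusedSimpArgs false
set_option linter.unusedVariables false

/-- row C1 -/
theorem st_C1 : ST_C1 := by
  intro V _ _ G _ hG c hm a s1 s2 s3 v1 v2 v3 p1 p2 p3 y q hub hp2 hv hy hq h2y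
  obtain ⟨⟨ca, c1, c2, c3, ⟨na, n12, n13, n23⟩⟩, ⟨-, cv1, -, cp1, ⟨ns1, hv1a, hv1p, hap1⟩⟩,
    ⟨-, cv2, -, cp2, ⟨ns2, hv2a, hv2p, hap2⟩⟩, ⟨-, cv3, -, cp3, ⟨ns3, hv3a, hv3p, hap3⟩⟩,
    r12, r13, r23⟩ := hub
  obtain ⟨-, -, cy, cq, ⟨nv, hsy, hsq, hyq⟩⟩ := hv
  obtain ⟨-, mp2⟩ := hp2
  obtain ⟨-, my⟩ := hy
  obtain ⟨-, mq⟩ := hq
  obtain ⟨z, hz⟩ := exists_mate mq
  have cz : c z = true := by rw [hz.2, cq]
  have hnp : ∀ x, ¬ Rm G c p2 x := nomate mp2
  have hny : ∀ x, ¬ Rm G c y x := nomate my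
  have hR : ∀ x y, Rm G c x y ↔ (G.Adj x y ∧ c y = c x) := fun _ _ => Iff.rfl
  have hsym : ∀ x y, G.Adj x y ↔ G.Adj y x := fun x y => G.adj_comm x y
  have hirr : ∀ x, ¬ G.Adj x x := fun x => G.loopless.irrefl x
  have ha1 : G.Adj a s1 := (na s1).2 (by simp)
  have ha2 : G.Adj a s2 := (na s2).2 (by simp)
  have ha3 : G.Adj a s3 := (na s3).2 (by simp)
  have rm1 : Rm G c s1 v1 := (hR s1 v1).2 ⟨(ns1 v1).2 (Or.inl rfl), by rw [c1, cv1]⟩
  have rm2 : Rm G c s2 v2 := (hR s2 v2).2 ⟨(ns2 v2).2 (Or.inl rfl), by rw [c2, cv2]⟩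
  have rm3 : Rm G c s3 v3 := (hR s3 v3).2 ⟨(ns3 v3).2 (Or.inl rfl), by rw [c3, cv3]⟩
  have v12 : v1 ≠ v2 := by rintro rfl; exact n12 (rm_uniq (hm v1) rm1.symm rm2.symm)
  have v13 : v1 ≠ v3 := by rintro rfl; exact n13 (rm_uniq (hm v1) rm1.symm rm3.symm)
  have v23 : v2 ≠ v3 := by rintro rfl; exact n23 (rm_uniq (hm v2) rm2.symm rm3.symm)
  have e12 : v1 ≠ s2 := by rintro rfl; exact r12 rm1
  have e13 : v1 ≠ s3 := by rintro rfl; exact r13 rm1
  have e21 : v2 ≠ s1 := by rintro rfl; exact r12 rm2.symm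
  have e23 : v2 ≠ s3 := by rintro rfl; exact r23 rm2
  have e31 : v3 ≠ s1 := by rintro rfl; exact r13 rm3.symm
  have e32 : v3 ≠ s2 := by rintro rfl; exact r23 rm3.symm
  have e11 : v1 ≠ s1 := rm1.ne.symm
  have e22 : v2 ≠ s2 := rm2.ne.symm
  have e33 : v3 ≠ s3 := rm3.ne.symm
  have nva : ¬ G.Adj v1 a := by rw [hsym, na]; rintro (h | h | h); exacts [e11 h, e12 h, e13 h]
  have nv3 : ∀ x, Rm G c v3 x ↔ x = s3 := fun x =>
    ⟨fun h => rm_uniq (hm v3) h rm3.symm, fun h => h ▸ rm3.symm⟩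
  have as2 : a ≠ s2 := ha2.ne
  have av1 : a ≠ v1 := hv1a.symm
  have dX : dd c ({s2, a, v1} : Finset V) = 1 := by
    unfold dd
    rw [Finset.sum_insert (by simp [as2.symm, e12.symm]), Finset.sum_insert (by simp [av1]),
      Finset.sum_singleton]
    simp [c2, ca, cv1]
  have s1X : s1 ∉ ({s2, a, v1} : Finset V) := by
    simp only [Finset.mem_insert, Finset.mem_singleton]; grind
  have s3X : s3 ∉ ({s2, a, v1} : Finset V) := by
    simp only [Finset.mem_insert, Finset.mem_singleton]; grind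
  have v3X : v3 ∉ ({s2, a, v1} : Finset V) := by
    simp only [Finset.mem_insert, Finset.mem_singleton]; grind
  have Rs1 : ∀ x, Rm G (flp c {s2, a, v1}) s1 x ↔ x = a := by
    intro x
    rw [rm_out s1X, hR]
    simp only [Finset.mem_insert, Finset.mem_singleton]
    grind
  have Rs3 : ∀ x, Rm G (flp c {s2, a, v1}) s3 x ↔ x = a ∨ x = v3 := by
    intro x
    rw [rm_out s3X, hR]
    simp only [Finset.mem_insert, Finset.mem_singleton]
    grind
  have Rv3 : ∀ x, Rm G (flp c {s2, a, v1}) v3 x ↔ x = s3 := by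
    intro x
    rw [rm_out v3X, nv3]
    simp only [Finset.mem_insert, Finset.mem_singleton]
    grind
  have Ra : ∀ x, Rm G (flp c {s2, a, v1}) a x ↔ x = s1 ∨ x = s3 := by
    intro x
    rw [rm_in (by simp), hR]
    simp only [Finset.mem_insert, Finset.mem_singleton]
    grind
  have cs1' : flp c {s2, a, v1} s1 = false := by rw [flp_not s1X, c1]
  have nq : ∀ x, Rm G c q x ↔ x = z := fun x => ⟨fun h => rm_uniq (hm q) h hz, fun h => h ▸ hz⟩
  have nz : ∀ x, Rm G c z x ↔ x = q := fun x =>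
    ⟨fun h => rm_uniq (hm z) h hz.symm, fun h => h ▸ hz.symm⟩
  have hzy : z ≠ y := by rintro rfl; exact hny q hz.symm
  have hzp : z ≠ p2 := by rintro rfl; exact hnp q hz.symm
  have hqp : q ≠ p2 := by rintro rfl; exact hnp z hz
  have hya : y ≠ a := by rintro rfl; exact nva ((nv y).2 (by simp))
  have hqa : q ≠ a := by rintro rfl; exact nva ((nv q).2 (by simp))
  have hza : z ≠ a := by
    rintro rfl
    have h1 := (na q).1 hz.1.symm
    rcases h1 with h | h | h
    · rw [h, c1] at cq; cases cq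
    · rw [h, c2] at cq; cases cq
    · rw [h, c3] at cq; cases cq
  have hzq : z ≠ q := hz.ne.symm
  have yX : y ∉ ({s2, a, v1} : Finset V) := by
    simp only [Finset.mem_insert, Finset.mem_singleton]; grind
  have qX : q ∉ ({s2, a, v1} : Finset V) := by
    simp only [Finset.mem_insert, Finset.mem_singleton]; grind
  have zX : z ∉ ({s2, a, v1} : Finset V) := by
    simp only [Finset.mem_insert, Finset.mem_singleton]; grind
  have Ry : ∀ x, Rm G (flp c {s2, a, v1}) y x ↔ x = v1 := by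
    intro x
    rw [rm_out yX]
    simp only [Finset.mem_insert, Finset.mem_singleton]
    grind
  have Rv : ∀ x, Rm G (flp c {s2, a, v1}) v1 x ↔ x = y ∨ x = q := by
    intro x
    rw [rm_in (by simp), hR]
    simp only [Finset.mem_insert, Finset.mem_singleton]
    grind
  have Rq : ∀ x, Rm G (flp c {s2, a, v1}) q x ↔ x = v1 ∨ x = z := by
    intro x
    rw [rm_out qX, nq]
    simp only [Finset.mem_insert, Finset.mem_singleton]
    grind
  have Rz : ∀ x, Rm G (flp c {s2, a, v1}) z x ↔ x = q := by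
    intro x
    rw [rm_out zX, nz]
    simp only [Finset.mem_insert, Finset.mem_singleton]
    grind
  have cy' : flp c {s2, a, v1} y = true := by rw [flp_not yX, cy]
  refine ⟨Finset.univ, Blk.of2 (Finset.subset_univ _) dX
    (comp4 (x := y) (y := v1) (z := q) (t := z) hyq (by grind) cy' Ry Rv Rq Rz)
    (comp4 (x := s1) (y := a) (z := s3) (t := v3) n13 hv3a.symm cs1' Rs1 Ra Rs3 Rv3)
    (fun _ => Finset.mem_univ _) (fun _ => Finset.mem_univ _) ?_⟩
  intro k h1 h2
  have k1 : k ≠ y := h1 0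
  have k2 : k ≠ v1 := h1 1
  have k3 : k ≠ q := h1 2
  have k4 : k ≠ z := h1 3
  have k5 : k ≠ s1 := h2 0
  have k6 : k ≠ a := h2 1
  have k7 : k ≠ s3 := h2 2
  have k8 : k ≠ v3 := h2 3
  by_cases ks : k = s2
  · subst ks
    refine mu_le_one (z := p2) ?_
    intro x
    rw [rm_in (by simp), hR]
    simp only [Finset.mem_insert, Finset.mem_singleton]
    grind
  have kX : k ∉ ({s2, a, v1} : Finset V) := by
    simp only [Finset.mem_insert, Finset.mem_singleton]; grind
  by_cases kp : k = p2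
  · subst kp
    refine mu_le_one (z := s2) ?_
    intro x
    rw [rm_out kX]
    simp only [Finset.mem_insert, Finset.mem_singleton]
    grind
  refine out_le hm kX ?_
  simp only [Finset.mem_insert, Finset.mem_singleton]
  intro x hx hkx
  have hxk := (hsym k x).1 hkx
  rcases hx with rfl | rfl | rfl
  · rcases (ns2 k).1 hxk with h | h | h
    · rw [h, c2, cv2]
    · exact absurd h k6
    · exact absurd h kp
  · rcases (na k).1 hxk with h | h | h
    · exact absurd h k5
    · exact absurd h ks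
    · exact absurd h k7
  · rcases (nv k).1 hxk with h | h | h
    · exact absurd h k5
    · exact absurd h k1
    · exact absurd h k3

end Pool.Agent.Helper35.MC
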