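import Mathlib
import Pool.Agent.Helper35.MC.Ob

/-!
MP_4042d8_co: row C2 (a 3-hub).
-/

namespace Pool.Agent.Helper35.MC

open Pool.Agent.Helper27.MC Pool.Agent.Helper51.MC Pool.Agent.Helper88.MC Pool.Agent.Helper64.MC

set_option autoImplicit false
set_option linter.unusedSectionVars false
set_option linter.unusedSimpArgs false
set_option linter.unusedVariables false

/-- row C2 -/
theorem st_C2 : ST_C2 := by
  intro V _ _ G _ hG c hm a s1 s2 s3 v1 v2 v3 p1 p2 p3 z hub hv hp2 hz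
  obtain ⟨⟨ca, c1, c2, c3, ⟨na, n12, n13, n23⟩⟩, ⟨-, cv1, -, cp1, ⟨ns1, hv1a, hv1p, hap1⟩⟩,
    ⟨-, cv2, -, cp2, ⟨ns2, hv2a, hv2p, hap2⟩⟩, ⟨-, cv3, -, cp3, ⟨ns3, hv3a, hv3p, hap3⟩⟩,
    r12, r13, r23⟩ := hub
  obtain ⟨-, -, -, cz, ⟨nv, hsp, hsz, hpz⟩⟩ := hv
  obtain ⟨-, mp2⟩ := hp2
  obtain ⟨-, mz⟩ := hz
  have hnp : ∀ x, ¬ Rm G c p2 x := nomate mp2
  have hnz : ∀ x, ¬ Rm G c z x := nomate mz
  have hR : ∀ x y, Rm G c x y ↔ (G.Adj x y ∧ c y = c x) := fun _ _ => Iff.rfl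
  have hsym : ∀ x y, G.Adj x y ↔ G.Adj y x := fun x y => G.adj_comm x y
  have hirr : ∀ x, ¬ G.Adj x x := fun x => G.loopless.irrefl x
  have ha1 : G.Adj a s1 := (na s1).2 (by simp)
  have ha2 : G.Adj a s2 := (na s2).2 (by simp)
  have ha3 : G.Adj a s3 := (na s3).2 (by simp)
  have rm1 : Rm G c s1 v1 := (hR s1 v1).2 ⟨(ns1 v1).2 (Or.inl rfl), by rw [c1, cv1]⟩
  have rm2 : Rm G c s2 v2 := (hR s2 v2).2 ⟨(ns2 v2).2 (Or.inl rfl), by rw [c2, cv2]⟩
  have rm3 : Rm G c s3 v3 := (hR s3 v3).2 ⟨(ns3 v3).2 (Or.inl rfl), by rw [c3, cv3]⟩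
  have v12 : v1 ≠ v2 := by rintro rfl; exact n12 (rm_uniq (hm v1) rm1.symm rm2.symm)
  have v13 : v1 ≠ v3 := by rintro rfl; exact n13 (rm_uniq (hm v1) rm1.symm rm3.symm)
  have v23 : v2 ≠ v3 := by rintro rfl; exact n23 (rm_uniq (hm v2) rm2.symm rm3.symm)
  have e12 : v1 ≠ s2 := by rintro rfl; exact r12 rm1
  have e13 : v1 ≠ s3 := by rintro rfl; exact r13 rm1
  have e21 : v2 ≠ s1 := by rintro rfl; exact r12 rm2.symm
  have e23 : v2 ≠ s3 := by rintro rfl; exact r23 rm2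
  have e31 : v3 ≠ s1 := by rintro rfl; exact r13 rm3.symm
  have e32 : v3 ≠ s2 := by rintro rfl; exact r23 rm3.symm
  have e11 : v1 ≠ s1 := rm1.ne.symm
  have e22 : v2 ≠ s2 := rm2.ne.symm
  have e33 : v3 ≠ s3 := rm3.ne.symm
  have nva : ¬ G.Adj v1 a := by rw [hsym, na]; rintro (h | h | h); exacts [e11 h, e12 h, e13 h]
  have nv3 : ∀ x, Rm G c v3 x ↔ x = s3 := fun x =>
    ⟨fun h => rm_uniq (hm v3) h rm3.symm, fun h => h ▸ rm3.symm⟩
  have as2 : a ≠ s2 := ha2.ne
  have av1 : a ≠ v1 := hv1a.symm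
  have dX : dd c ({s2, a, v1} : Finset V) = 1 := by
    unfold dd
    rw [Finset.sum_insert (by simp [as2.symm, e12.symm]), Finset.sum_insert (by simp [av1]),
      Finset.sum_singleton]
    simp [c2, ca, cv1]
  have s1X : s1 ∉ ({s2, a, v1} : Finset V) := by
    simp only [Finset.mem_insert, Finset.mem_singleton]; grind
  have s3X : s3 ∉ ({s2, a, v1} : Finset V) := by
    simp only [Finset.mem_insert, Finset.mem_singleton]; grind
  have v3X : v3 ∉ ({s2, a, v1} : Finset V) := by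
    simp only [Finset.mem_insert, Finset.mem_singleton]; grind
  have Rs1 : ∀ x, Rm G (flp c {s2, a, v1}) s1 x ↔ x = a := by
    intro x
    rw [rm_out s1X, hR]
    simp only [Finset.mem_insert, Finset.mem_singleton]
    grind
  have Rs3 : ∀ x, Rm G (flp c {s2, a, v1}) s3 x ↔ x = a ∨ x = v3 := by
    intro x
    rw [rm_out s3X, hR]
    simp only [Finset.mem_insert, Finset.mem_singleton]
    grind
  have Rv3 : ∀ x, Rm G (flp c {s2, a, v1}) v3 x ↔ x = s3 := by
    intro x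
    rw [rm_out v3X, nv3]
    simp only [Finset.mem_insert, Finset.mem_singleton]
    grind
  have Ra : ∀ x, Rm G (flp c {s2, a, v1}) a x ↔ x = s1 ∨ x = s3 := by
    intro x
    rw [rm_in (by simp), hR]
    simp only [Finset.mem_insert, Finset.mem_singleton]
    grind
  have cs1' : flp c {s2, a, v1} s1 = false := by rw [flp_not s1X, c1]
  have hza : z ≠ a := by rintro rfl; exact nva ((nv z).2 (by simp))
  have pX : p2 ∉ ({s2, a, v1} : Finset V) := by
    simp only [Finset.mem_insert, Finset.mem_singleton]; grind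
  have zX : z ∉ ({s2, a, v1} : Finset V) := by
    simp only [Finset.mem_insert, Finset.mem_singleton]; grind
  have Rs2 : ∀ x, Rm G (flp c {s2, a, v1}) s2 x ↔ x = p2 := by
    intro x
    rw [rm_in (by simp), hR]
    simp only [Finset.mem_insert, Finset.mem_singleton]
    grind
  have Rp : ∀ x, Rm G (flp c {s2, a, v1}) p2 x ↔ x = s2 ∨ x = v1 := by
    intro x
    rw [rm_out pX]
    simp only [Finset.mem_insert, Finset.mem_singleton]
    grind
  have Rv : ∀ x, Rm G (flp c {s2, a, v1}) v1 x ↔ x = p2 ∨ x = z := by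
    intro x
    rw [rm_in (by simp), hR]
    simp only [Finset.mem_insert, Finset.mem_singleton]
    grind
  have Rz : ∀ x, Rm G (flp c {s2, a, v1}) z x ↔ x = v1 := by
    intro x
    rw [rm_out zX]
    simp only [Finset.mem_insert, Finset.mem_singleton]
    grind
  have cs2' : flp c {s2, a, v1} s2 = true := by rw [flp_in (by simp), c2]; rfl
  refine ⟨Finset.univ, Blk.of2 (Finset.subset_univ _) dX
    (comp4 (x := s2) (y := p2) (z := v1) (t := z) e12.symm hpz cs2' Rs2 Rp Rv Rz)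
    (comp4 (x := s1) (y := a) (z := s3) (t := v3) n13 hv3a.symm cs1' Rs1 Ra Rs3 Rv3)
    (fun _ => Finset.mem_univ _) (fun _ => Finset.mem_univ _) ?_⟩
  intro k h1 h2
  have k1 : k ≠ s2 := h1 0
  have k2 : k ≠ p2 := h1 1
  have k3 : k ≠ v1 := h1 2
  have k4 : k ≠ z := h1 3
  have k5 : k ≠ s1 := h2 0
  have k6 : k ≠ a := h2 1
  have k7 : k ≠ s3 := h2 2
  have k8 : k ≠ v3 := h2 3
  have kX : k ∉ ({s2, a, v1} : Finset V) := by
    simp only [Finset.mem_insert, Finset.mem_singleton]; grind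
  refine out_le hm kX ?_
  simp only [Finset.mem_insert, Finset.mem_singleton]
  intro x hx hkx
  have hxk := (hsym k x).1 hkx
  rcases hx with rfl | rfl | rfl
  · rcases (ns2 k).1 hxk with h | h | h
    · rw [h, c2, cv2]
    · exact absurd h k6
    · exact absurd h k2
  · rcases (na k).1 hxk with h | h | h
    · exact absurd h k5
    · exact absurd h k1
    · exact absurd h k7
  · rcases (nv k).1 hxk with h | h | h
    · exact absurd h k5
    · exact absurd h k2
    · exact absurd h k4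

end Pool.Agent.Helper35.MC
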