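import Mathlib
import Pool.Agent.Helper33.MC.St
import Pool.Agent.Helper91.MC.Dict
import Pool.Agent.Helper35.MC.Ob
import Pool.Agent.Helper42.MC.ZERO

/-!
MP_4042d8_co, row D_SW: the swap of a square is neutral.
-/

namespace Pool.Agent.Helper35.MC

open Pool.Agent.Helper27.MC hiding Fr T1 ter
open Pool.Agent.Helper51.MC Pool.Agent.Helper88.MC Pool.Agent.Helper64.MC
open Pool.Agent.Helper91.MC Pool.Agent.Helper33.MC

set_option autoImplicit false
set_option linter.unusedSectionVars false
set_option linter.unusedSimpArgs false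
set_option linter.unusedVariables false

/-- row D_SW -/
theorem st_DSW : ST_DSW := by
  intro V _ _ G _ hG htf c j hj hO s1 s2 a b v1 v2 w1 w2 sq
  have hm := hO.mu1
  obtain ⟨⟨c1, cv1, ca, cb, ⟨ns1, hv1a, hv1b, hab⟩⟩, ⟨c2, cv2, -, -, ⟨ns2, hv2a, hv2b, -⟩⟩,
    ⟨-, -, -, cw1, ⟨na, n12, n1w, n2w⟩⟩, ⟨-, -, -, cw2, ⟨nb, -, n1w2, n2w2⟩⟩, ⟨-, ma⟩, ⟨-, mb⟩,
    ⟨-, mw1⟩, ⟨-, mw2⟩, hw⟩ := sq
  have hna : ∀ x, ¬ Rm G c a x := nomate ma
  have hnb : ∀ x, ¬ Rm G c b x := nomate mb
  have hnw1 : ∀ x, ¬ Rm G c w1 x := nomate mw1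
  have hnw2 : ∀ x, ¬ Rm G c w2 x := nomate mw2
  have hR : ∀ x y, Rm G c x y ↔ (G.Adj x y ∧ c y = c x) := fun _ _ => Iff.rfl
  have hsym : ∀ x y, G.Adj x y ↔ G.Adj y x := fun x y => G.adj_comm x y
  have hirr : ∀ x, ¬ G.Adj x x := fun x => G.loopless.irrefl x
  have a1 : G.Adj a s1 := (na s1).2 (by simp)
  have a2 : G.Adj a s2 := (na s2).2 (by simp)
  have b1 : G.Adj b s1 := (nb s1).2 (by simp)
  have b2 : G.Adj b s2 := (nb s2).2 (by simp)
  have nad : ¬ G.Adj s1 s2 := fun h => htf a s1 s2 a1 h a2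
  have rm1 : Rm G c s1 v1 := (hR s1 v1).2 ⟨(ns1 v1).2 (Or.inl rfl), by rw [c1, cv1]⟩
  have rm2 : Rm G c s2 v2 := (hR s2 v2).2 ⟨(ns2 v2).2 (Or.inl rfl), by rw [c2, cv2]⟩
  have hv12 : v1 ≠ s2 := by rintro rfl; exact nad rm1.1
  have hv21 : v2 ≠ s1 := by rintro rfl; exact nad rm2.1.symm
  have hv11 : v1 ≠ s1 := rm1.ne.symm
  have hv22 : v2 ≠ s2 := rm2.ne.symm
  have ndab : ¬ G.Adj a b := fun h => htf s1 a b a1.symm h b1.symm
  have nd : ([s1, s2, a, b] : List V).Nodup := by
    simp [n12, a1.ne.symm, a2.ne.symm, b1.ne.symm, b2.ne.symm, hab]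
  have hX : ([s1, s2, a, b] : List V).toFinset = {s1, s2, a, b} := by simp
  refine (Pool.Agent.Helper42.MC.ZERO V G hG c j hO).1 {s1, s2, a, b} ?_ ?_ ?_
  · rw [← hX, cost_list c _ nd]
    simp only [cl_cons, cl_nil, List.map_cons, List.map_nil, List.sum_cons, List.sum_nil, ma, mb,
      mu_of_rm hm rm1, mu_of_rm hm rm2]
    have e1 : sf G c s1 s2 = 0 := sf_nadj nad
    have e2 : sf G c s1 a = 1 := sf_adj a1.symm (by rw [ca, c1]; decide)
    have e3 : sf G c s1 b = 1 := sf_adj b1.symm (by rw [cb, c1]; decide)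
    have e5 : sf G c s2 a = 1 := sf_adj a2.symm (by rw [ca, c2]; decide)
    have e6 : sf G c s2 b = 1 := sf_adj b2.symm (by rw [cb, c2]; decide)
    have e8 : sf G c a b = 0 := sf_nadj ndab
    rw [e1, e2, e3, e5, e6, e8]
    norm_num
  · rw [← hX, dd_list c _ nd]
    simp [dl_cons, dl_nil, ca, cb, c1, c2]
  · intro v
    by_cases g1 : v = s1
    · subst g1
      refine mu_le_one (z := v) ?_
      intro y
      rw [rm_in (by simp), hR]
      simp only [Finset.mem_insert, Finset.mem_singleton]
      grind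
    by_cases g2 : v = s2
    · subst g2
      refine mu_le_one (z := v) ?_
      intro y
      rw [rm_in (by simp), hR]
      simp only [Finset.mem_insert, Finset.mem_singleton]
      grind
    by_cases g3 : v = a
    · subst g3
      refine mu_le_one (z := w1) ?_
      intro y
      rw [rm_in (by simp), hR]
      simp only [Finset.mem_insert, Finset.mem_singleton]
      grind
    by_cases g4 : v = b
    · subst g4
      refine mu_le_one (z := w2) ?_
      intro y
      rw [rm_in (by simp), hR]
      simp only [Finset.mem_insert, Finset.mem_singleton]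
      grind
    have vX : v ∉ ({s1, s2, a, b} : Finset V) := by
      simp only [Finset.mem_insert, Finset.mem_singleton]; grind
    by_cases g5 : v = w1
    · subst g5
      refine mu_le_one (z := a) ?_
      intro y
      rw [rm_out vX]
      simp only [Finset.mem_insert, Finset.mem_singleton]
      grind
    by_cases g6 : v = w2
    · subst g6
      refine mu_le_one (z := b) ?_
      intro y
      rw [rm_out vX]
      simp only [Finset.mem_insert, Finset.mem_singleton]
      grind
    refine out_le hm vX ?_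
    simp only [Finset.mem_insert, Finset.mem_singleton]
    intro y hy hvy
    have hyv := (hsym v y).1 hvy
    rcases hy with rfl | rfl | rfl | rfl
    · rcases (ns1 v).1 hyv with h | h | h
      · rw [h, c1, cv1]
      · exact absurd h g3
      · exact absurd h g4
    · rcases (ns2 v).1 hyv with h | h | h
      · rw [h, c2, cv2]
      · exact absurd h g3
      · exact absurd h g4
    · rcases (na v).1 hyv with h | h | h
      · exact absurd h g1
      · exact absurd h g2
      · exact absurd h g5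
    · rcases (nb v).1 hyv with h | h | h
      · exact absurd h g1
      · exact absurd h g2
      · exact absurd h g6

end Pool.Agent.Helper35.MC
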