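import Mathlib
import Pool.Agent.Helper35.MC.DF3
import Pool.Agent.Helper35.MC.DSW

/-!
MP_4042d8_co, rows D_R3 and D_FX: fact R3 (from the swapped colouring) and the facts of section D.
-/

namespace Pool.Agent.Helper35.MC

open Pool.Agent.Helper27.MC hiding Fr T1 ter
open Pool.Agent.Helper51.MC Pool.Agent.Helper88.MC Pool.Agent.Helper64.MC
open Pool.Agent.Helper91.MC Pool.Agent.Helper33.MC

set_option autoImplicit false
set_option linter.unusedSectionVars false
set_option linter.unusedSimpArgs false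
set_option linter.unusedVariables false

section

variable {V : Type} [Fintype V] [DecidableEq V] {G : SimpleGraph V} [DecidableRel G.Adj]

/-- a vertex outside `X` without neighbours in `X` keeps its `mu` -/
theorem mu_far {c : V → Bool} {X : Finset V} {v : V} (hv : v ∉ X) (h : ∀ x ∈ X, ¬ G.Adj v x) :
    mu G (flp c X) v = mu G c v :=
  mu_congr G (flp_not hv) (fun w hw => flp_not (fun hX => h w hX hw))

end

/-- row D_R3 -/
theorem st_DR3 : ST_DR3 := by
  intro V _ _ G _ hG htf c j hj hO s1 s2 a b v1 v2 w1 w2 n1 n2 f sq hw hn1 hn2 hf hf1 hf2 hfn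
  have hO' := st_DSW V G hG htf c j hj hO s1 s2 a b v1 v2 w1 w2 sq
  have hm := hO.mu1
  have hm' := hO'.mu1
  obtain ⟨⟨c1, cv1, ca, cb, ⟨ns1, hv1a, hv1b, hab⟩⟩, ⟨c2, cv2, -, -, ⟨ns2, hv2a, hv2b, -⟩⟩,
    ⟨-, -, -, cw1, ⟨na, n12, n1w, n2w⟩⟩, ⟨-, -, -, cw2, ⟨nb, -, n1w2, n2w2⟩⟩, ⟨-, ma⟩, ⟨-, mb⟩,
    ⟨-, mw1⟩, ⟨-, mw2⟩, hw12⟩ := sq
  obtain ⟨nw, han1, han2, hn12⟩ := hw
  obtain ⟨v, p, q, nf, cf, cv, cp, cq, hpq, mp, mq⟩ := fr_data hG hm hf
  have tSf := (mem_Fr.1 hf).1
  have hsym : ∀ x y, G.Adj x y ↔ G.Adj y x := fun x y => G.adj_comm x y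
  have rm1 : Rm G c s1 v1 := ⟨(ns1 v1).2 (Or.inl rfl), by rw [c1, cv1]⟩
  have rm2 : Rm G c s2 v2 := ⟨(ns2 v2).2 (Or.inl rfl), by rw [c2, cv2]⟩
  have rmf : Rm G c f v := ⟨(nf v).2 (Or.inl rfl), by rw [cf, cv]⟩
  have a1 : G.Adj a s1 := (na s1).2 (by simp)
  have aw : G.Adj w1 a := ((na w1).2 (by simp)).symm
  have hwn1 : G.Adj w1 n1 := (nw n1).2 (by simp)
  have hwn2 : G.Adj w1 n2 := (nw n2).2 (by simp)
  -- a true vertex other than `a`, `b` has no neighbour in the square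
  have far : ∀ x, c x = true → x ≠ a → x ≠ b → ∀ y ∈ ({s1, s2, a, b} : Finset V), ¬ G.Adj x y := by
    intro x cx hxa hxb y hy hxy
    simp only [Finset.mem_insert, Finset.mem_singleton] at hy
    have hyx := hxy.symm
    rcases hy with rfl | rfl | rfl | rfl
    · rcases (ns1 x).1 hyx with h | h | h
      · rw [h, cv1] at cx; cases cx
      · exact hxa h
      · exact hxb h
    · rcases (ns2 x).1 hyx with h | h | h
      · rw [h, cv2] at cx; cases cx
      · exact hxa h
      · exact hxb h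
    · rcases (na x).1 hyx with h | h | h
      · rw [h, c1] at cx; cases cx
      · rw [h, c2] at cx; cases cx
      · rw [h, cw1] at cx; cases cx
    · rcases (nb x).1 hyx with h | h | h
      · rw [h, c1] at cx; cases cx
      · rw [h, c2] at cx; cases cx
      · rw [h, cw2] at cx; cases cx
  have out : ∀ x, c x = true → x ≠ a → x ≠ b → x ∉ ({s1, s2, a, b} : Finset V) := by
    intro x cx hxa hxb hx
    simp only [Finset.mem_insert, Finset.mem_singleton] at hx
    rcases hx with rfl | rfl | rfl | rfl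
    · rw [c1] at cx; cases cx
    · rw [c2] at cx; cases cx
    · exact hxa rfl
    · exact hxb rfl
  have hA : ∀ x, c x = true → x ≠ a → x ≠ b → mu G c x = 0 →
      tA G (flp c {s1, s2, a, b}) x := by
    intro x cx hxa hxb mx
    exact ⟨by rw [flp_not (out x cx hxa hxb), cx], by rw [mu_far (out x cx hxa hxb) (far x cx hxa hxb), mx]⟩
  -- `w1` is not adjacent to `b`
  have wb : ¬ G.Adj w1 b := by
    rw [hsym, nb]
    rintro (h | h | h)
    exacts [n1w h.symm, n2w h.symm, hw12 h]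
  have hn1b : n1 ≠ b := by rintro rfl; exact wb hwn1
  have hn2b : n2 ≠ b := by rintro rfl; exact wb hwn2
  have tn1 := hA n1 hn1.1 han1.symm hn1b hn1.2
  have tn2 := hA n2 hn2.1 han2.symm hn2b hn2.2
  -- `w1` in the swapped colouring
  have w1X : w1 ∉ ({s1, s2, a, b} : Finset V) := by
    simp only [Finset.mem_insert, Finset.mem_singleton, not_or]
    refine ⟨n1w.symm, n2w.symm, aw.ne, ?_⟩
    rintro rfl; rw [cw1] at cb; cases cb
  have ca' : flp c {s1, s2, a, b} a = false := by rw [flp_in (by simp), ca]; rfl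
  have cw1' : flp c {s1, s2, a, b} w1 = false := by rw [flp_not w1X, cw1]
  have svw : Sv G (flp c {s1, s2, a, b}) w1 a n1 n2 :=
    ⟨cw1', ca', tn1.1, tn2.1, ⟨nw, han1, han2, hn12⟩⟩
  have frw : w1 ∈ Fr G (flp c {s1, s2, a, b}) := (sv_Fr hm' svw).2 ⟨tn1, tn2⟩
  -- `f` in the swapped colouring
  have hfs1 : f ≠ s1 := by
    rintro rfl
    rcases (ns1 n1).1 hfn with h | h | h
    · have h3 := hn1.1
      rw [h, cv1] at h3; cases h3
    · exact han1 h.symm
    · exact hn1b h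
  have hfs2 : f ≠ s2 := by
    rintro rfl
    rcases (ns2 n1).1 hfn with h | h | h
    · have h3 := hn1.1
      rw [h, cv2] at h3; cases h3
    · exact han1 h.symm
    · exact hn1b h
  have hfw1 : f ≠ w1 := by
    rintro rfl
    have := tSf.2
    omega
  have hfw2 : f ≠ w2 := by
    rintro rfl
    have := tSf.2
    omega
  have fa : ¬ G.Adj f a := by
    rw [hsym, na]
    rintro (h | h | h)
    exacts [hfs1 h, hfs2 h, hfw1 h]
  have fb : ¬ G.Adj f b := by
    rw [hsym, nb]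
    rintro (h | h | h)
    exacts [hfs1 h, hfs2 h, hfw2 h]
  have hvs1 : v ≠ s1 := by
    rintro rfl
    exact hf1 (rm_uniq (hm v) rmf.symm rm1)
  have hvs2 : v ≠ s2 := by
    rintro rfl
    exact hf2 (rm_uniq (hm v) rmf.symm rm2)
  have fX : f ∉ ({s1, s2, a, b} : Finset V) := by
    simp only [Finset.mem_insert, Finset.mem_singleton, not_or]
    refine ⟨hfs1, hfs2, ?_, ?_⟩
    · rintro rfl; rw [cf] at ca; cases ca
    · rintro rfl; rw [cf] at cb; cases cb
  have vX : v ∉ ({s1, s2, a, b} : Finset V) := by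
    simp only [Finset.mem_insert, Finset.mem_singleton, not_or]
    refine ⟨hvs1, hvs2, ?_, ?_⟩
    · rintro rfl; rw [cv] at ca; cases ca
    · rintro rfl; rw [cv] at cb; cases cb
  have hpa : p ≠ a := by rintro rfl; exact fa ((nf p).2 (by simp))
  have hpb : p ≠ b := by rintro rfl; exact fb ((nf p).2 (by simp))
  have hqa : q ≠ a := by rintro rfl; exact fa ((nf q).2 (by simp))
  have hqb : q ≠ b := by rintro rfl; exact fb ((nf q).2 (by simp))
  have tp := hA p cp hpa hpb mp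
  have tq := hA q cq hqa hqb mq
  have hvp : v ≠ p := by rintro rfl; rw [cv] at cp; cases cp
  have hvq : v ≠ q := by rintro rfl; rw [cv] at cq; cases cq
  have svf : Sv G (flp c {s1, s2, a, b}) f v p q :=
    ⟨by rw [flp_not fX, cf], by rw [flp_not vX, cv], tp.1, tq.1, ⟨nf, hvp, hvq, hpq⟩⟩
  have frf : f ∈ Fr G (flp c {s1, s2, a, b}) := (sv_Fr hm' svf).2 ⟨tp, tq⟩
  obtain ⟨b', u1, u2, z1, z2, sq'⟩ := st_DF3 V G hG htf _ j hj hO' n1 w1 f tn1 frw frf hfw1.symm
    hwn1.symm hfn.symm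
  have hb1 : G.Adj w1 b' := (sq'.h1.n3.nb b').2 (by simp)
  have hb2 : G.Adj f b' := (sq'.h2.n3.nb b').2 (by simp)
  rcases (nw b').1 hb1 with h | h | h
  · exfalso
    have h3 := sq'.h1.cb
    rw [h, ca'] at h3
    cases h3
  · exact absurd h.symm sq'.h1.n3.yz
  · rw [← h]; exact hb2

/-- row D_FX -/
theorem st_DFX : ST_DFX := by
  intro V _ _ G _ hG htf c j hj hO
  refine ⟨hG, htf, hO.mu1, ?_, ?_, ?_, ?_⟩
  · intro q s s' hq hs hs' h h'
    by_contra hne
    exact htf q s s' h (F1 hG (by omega) hO hq hs hs' h h' hne).1 h'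
  · intro a s1 s2 s3 ha h1 h2 h3 a1 a2 a3
    by_contra hcon
    simp only [not_or] at hcon
    exact noS3 hG htf hj hO ha h1 h2 h3 a1 a2 a3 hcon.1 hcon.2.1 hcon.2.2
  · exact st_DF3 V G hG htf c j hj hO
  · exact st_DR3 V G hG htf c j hj hO

end Pool.Agent.Helper35.MC
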