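import Mathlib
import Pool.Agent.Helper35.MC.Ob
import Pool.Agent.Helper91.MC.SVX

/-!
MP_4042d8_co, row X_H2: a slot with exactly one further neighbour `t` of type `S`.
-/

namespace Pool.Agent.Helper35.MC

open Pool.Agent.Helper27.MC Pool.Agent.Helper51.MC Pool.Agent.Helper88.MC Pool.Agent.Helper64.MC
open Pool.Agent.Helper91.MC

set_option autoImplicit false
set_option linter.unusedSectionVars false
set_option linter.unusedSimpArgs false
set_option linter.unusedVariables false

/-- row X_H2 -/
theorem st_H2 : ST_H2 := by
  intro V _ _ G _ hG c j hj hO u m a b x t r S hx htr hru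
  have hm := hO.mu1
  have hta : G.Adj t a := ((S.nba t).2 (by simp)).symm
  have ct : c t = false := S.cy
  have tSt : tS G c t := ⟨ct, mu_of_rm hm htr⟩
  obtain ⟨r', e, sv⟩ := sv_ex hG tSt hta S.ca
  have hr : r' = r := rm_uniq (hm t) (sv_rm sv) htr
  subst hr
  have hA : tA G c a := ⟨S.ca, S.ma⟩
  rcases tA_or_tQ hm sv.cb with he | he
  · by_cases htb : G.Adj t b
    · exact Or.inr ⟨(sv_Fr hm sv).2 ⟨hA, he⟩, htb⟩
    exfalso
    obtain ⟨cu, cmm, ca, cb, ma, mb, hab, nu, na, hxt, hxu, htu⟩ := S
    obtain ⟨-, cr, -, ce, ⟨nt, hra, hre, hae⟩⟩ := sv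
    obtain ⟨-, me⟩ := he
    have hna : ∀ x, ¬ Rm G c a x := nomate ma
    have hnb : ∀ x, ¬ Rm G c b x := nomate mb
    have hne : ∀ x, ¬ Rm G c e x := nomate me
    have hR : ∀ x y, Rm G c x y ↔ (G.Adj x y ∧ c y = c x) := fun _ _ => Iff.rfl
    have hsym : ∀ x y, G.Adj x y ↔ G.Adj y x := fun x y => G.adj_comm x y
    have hirr : ∀ x, ¬ G.Adj x x := fun x => G.loopless.irrefl x
    have rum : Rm G c u m := (hR u m).2 ⟨(nu m).2 (Or.inl rfl), by rw [cu, cmm]⟩
    have hmt : m ≠ t := by
      rintro rfl
      exact hru (rm_uniq (hm m) htr rum.symm)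
    have cx : c x = false := by
      cases h : c x
      · rfl
      · exact absurd ((hR a x).2 ⟨(na x).2 (by simp), by rw [h, ca]⟩) (hna x)
    have hua : u ≠ a := by rintro rfl; rw [cu] at ca; cases ca
    have hat : a ≠ t := by rintro rfl; rw [ct] at ca; cases ca
    have heb : e ≠ b := by rintro rfl; exact htb ((nt e).2 (by simp))
    have nut : ¬ Rm G c u t := by
      intro h
      exact hmt (rm_uniq (hm u) rum h)
    have key : ∀ v, mu G (flp c ({u, a, t} : Finset V)) v ≤ 1 := by
      intro v
      by_cases v1 : v = u
      · subst v1
        refine mu_le_one (z := b) ?_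
        intro y
        rw [rm_in (by simp), hR]
        simp only [Finset.mem_insert, Finset.mem_singleton]
        grind
      by_cases v2 : v = t
      · subst v2
        refine mu_le_one (z := e) ?_
        intro y
        rw [rm_in (by simp), hR]
        simp only [Finset.mem_insert, Finset.mem_singleton]
        grind
      by_cases v3 : v = a
      · subst v3
        refine mu_le_one (z := x) ?_
        intro y
        rw [rm_in (by simp), hR]
        simp only [Finset.mem_insert, Finset.mem_singleton]
        grind
      have vX : v ∉ ({u, a, t} : Finset V) := by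
        simp only [Finset.mem_insert, Finset.mem_singleton]; grind
      by_cases v4 : v = x
      · subst v4
        refine mu_le_one (z := a) ?_
        intro y
        rw [rm_out vX]
        simp only [Finset.mem_insert, Finset.mem_singleton]
        grind
      by_cases v5 : v = b
      · subst v5
        refine mu_le_one (z := u) ?_
        intro y
        rw [rm_out vX]
        simp only [Finset.mem_insert, Finset.mem_singleton]
        grind
      by_cases v6 : v = e
      · subst v6
        refine mu_le_one (z := t) ?_
        intro y
        rw [rm_out vX]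
        simp only [Finset.mem_insert, Finset.mem_singleton]
        grind
      refine out_le hm vX ?_
      simp only [Finset.mem_insert, Finset.mem_singleton]
      intro y hy hvy
      have hyv := (hsym v y).1 hvy
      rcases hy with rfl | rfl | rfl
      · rcases (nu v).1 hyv with h | h | h
        · rw [h, cu, cmm]
        · exact absurd h v3
        · exact absurd h v5
      · rcases (na v).1 hyv with h | h | h
        · exact absurd h v1
        · exact absurd h v4
        · exact absurd h v2
      · rcases (nt v).1 hyv with h | h | h
        · rw [h, ct, cr]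
        · exact absurd h v3
        · exact absurd h v6
    have nd : ([u, a, t] : List V).Nodup := by
      simp [hua, hat, htu.symm]
    refine Pcrit hG hO [u, a, t] nd 1 (by simp [dl_cons, dl_nil, cu, ca, ct]) one_pos
      (by exact_mod_cast hj) ?_ (by
        have : ([u, a, t] : List V).toFinset = {u, a, t} := by simp
        rw [this]
        exact key)
    simp only [cl_cons, cl_nil, List.map_cons, List.map_nil, List.sum_cons, List.sum_nil, ma, tSt.2]
    have e1 : sf G c u a = 1 := sf_adj ((nu a).2 (by simp)) (by rw [cu, ca]; decide)
    have e2 : 0 ≤ sf G c u t := sf_nrm nut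
    have e3 : sf G c a t = 1 := sf_adj ((na t).2 (by simp)) (by rw [ct, ca]; decide)
    have e4 : mu G c u = 1 := mu_of_rm hm rum
    rw [e4]
    push_cast
    linarith
  · exact Or.inl ((sv_T1 hm sv).2 (Or.inl ⟨hA, he⟩))

end Pool.Agent.Helper35.MC
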