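import Mathlib
import Pool.Agent.Helper35.MC.Ob

/-!
MP_4042d8_co: row SQ1 (squares).
-/

namespace Pool.Agent.Helper35.MC

open Pool.Agent.Helper27.MC Pool.Agent.Helper51.MC Pool.Agent.Helper88.MC Pool.Agent.Helper64.MC

set_option autoImplicit false
set_option linter.unusedSectionVars false
set_option linter.unusedSimpArgs false
set_option linter.unusedVariables false

/-- row SQ1 -/
theorem st_SQ1 : ST_SQ1 := by
  intro V _ _ G _ hG c hm u t a b w v r s hu ht hut ha hb hw hs hsu hst hsv hsr
  obtain ⟨m, p, q, hS, mp, mq⟩ := free_nb hG hm hs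
  obtain ⟨cu, cv, ca, cb, ⟨nu, nva, nvb, nab⟩⟩ := hu
  obtain ⟨ct, cr, -, -, ⟨nt, nra, nrb, -⟩⟩ := ht
  obtain ⟨-, -, -, cw, ⟨na, nut, nuw, ntw⟩⟩ := ha
  obtain ⟨-, -, -, -, ⟨nb, -, -, -⟩⟩ := hb
  obtain ⟨cs, cm, cp, cq, ⟨ns, nmp, nmq, npq⟩⟩ := hS
  obtain ⟨-, mw⟩ := hw
  have hnw : ∀ x, ¬ Rm G c w x := nomate mw
  have hnp : ∀ x, ¬ Rm G c p x := nomate mp
  have hnq : ∀ x, ¬ Rm G c q x := nomate mq
  have hrm : ∀ x y, G.Adj x y → c x = c y → Rm G c x y := fun x y h e => ⟨h, e.symm⟩
  have hR : ∀ x y, Rm G c x y ↔ (G.Adj x y ∧ c y = c x) := fun _ _ => Iff.rfl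
  have hsym : ∀ x y, G.Adj x y ↔ G.Adj y x := fun x y => G.adj_comm x y
  have hirr : ∀ x, ¬ G.Adj x x := fun x => G.loopless.irrefl x
  -- mates
  have rus : Rm G c s m := hrm s m ((ns m).2 (Or.inl rfl)) (by rw [cs, cm])
  have ruv : Rm G c u v := hrm u v ((nu v).2 (Or.inl rfl)) (by rw [cu, cv])
  have rtr : Rm G c t r := hrm t r ((nt r).2 (Or.inl rfl)) (by rw [ct, cr])
  have hmu : m ≠ u := by
    rintro rfl
    exact hsv (rm_uniq (hm m) rus.symm ruv)
  have hmt : m ≠ t := by
    rintro rfl
    exact hsr (rm_uniq (hm m) rus.symm rtr)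
  have hvt : v ≠ t := by rintro rfl; exact hut ruv
  have hru : r ≠ u := by rintro rfl; exact hut rtr.symm
  have hws : w ≠ s := by rintro rfl; exact hnw m rus
  have hsa : ¬ G.Adj s a := by rw [hsym, na]; rintro (h | h | h); exacts [hsu h, hst h, hws h.symm]
  have hsb : ¬ G.Adj s b := by rw [hsym, nb]; rintro (h | h | h); exacts [hsu h, hst h, hws h.symm]
  have hpa : p ≠ a := by rintro rfl; exact hsa ((ns p).2 (by simp))
  have hpb : p ≠ b := by rintro rfl; exact hsb ((ns p).2 (by simp))
  have hqa : q ≠ a := by rintro rfl; exact hsa ((ns q).2 (by simp))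
  have hqb : q ≠ b := by rintro rfl; exact hsb ((ns q).2 (by simp))
  have dX : dd c ({u, t, a, b, s} : Finset V) = 1 := by
    have e1 : u ≠ a := by rintro rfl; rw [cu] at ca; cases ca
    have e2 : u ≠ b := by rintro rfl; rw [cu] at cb; cases cb
    have e3 : t ≠ a := by rintro rfl; rw [ct] at ca; cases ca
    have e4 : t ≠ b := by rintro rfl; rw [ct] at cb; cases cb
    have e5 : a ≠ s := by rintro rfl; rw [cs] at ca; cases ca
    have e6 : b ≠ s := by rintro rfl; rw [cs] at cb; cases cb
    unfold dd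
    rw [Finset.sum_insert (by simp [nut, e1, e2, hsu.symm]), Finset.sum_insert (by simp [e3, e4, hst.symm]),
      Finset.sum_insert (by simp [nab, e5]), Finset.sum_insert (by simp [e6]), Finset.sum_singleton]
    simp [cu, ct, ca, cb, cs]
  -- the new mono neighbours
  have pX : p ∉ ({u, t, a, b, s} : Finset V) := by
    simp only [Finset.mem_insert, Finset.mem_singleton]; grind
  have qX : q ∉ ({u, t, a, b, s} : Finset V) := by
    simp only [Finset.mem_insert, Finset.mem_singleton]; grind
  have wX : w ∉ ({u, t, a, b, s} : Finset V) := by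
    simp only [Finset.mem_insert, Finset.mem_singleton]; grind
  have Rp : ∀ x, Rm G (flp c {u, t, a, b, s}) p x ↔ x = s := by
    intro x
    rw [rm_out pX]
    simp only [Finset.mem_insert, Finset.mem_singleton]
    grind
  have Rq : ∀ x, Rm G (flp c {u, t, a, b, s}) q x ↔ x = s := by
    intro x
    rw [rm_out qX]
    simp only [Finset.mem_insert, Finset.mem_singleton]
    grind
  have Rw : ∀ x, Rm G (flp c {u, t, a, b, s}) w x ↔ x = a ∨ x = b := by
    intro x
    rw [rm_out wX]
    simp only [Finset.mem_insert, Finset.mem_singleton]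
    grind
  have Rs : ∀ x, Rm G (flp c {u, t, a, b, s}) s x ↔ x = p ∨ x = q := by
    intro x
    rw [rm_in (by simp), hR]
    simp only [Finset.mem_insert, Finset.mem_singleton]
    grind
  have Ra : ∀ x, Rm G (flp c {u, t, a, b, s}) a x ↔ x = w := by
    intro x
    rw [rm_in (by simp), hR]
    simp only [Finset.mem_insert, Finset.mem_singleton]
    grind
  have Rb : ∀ x, Rm G (flp c {u, t, a, b, s}) b x ↔ x = w := by
    intro x
    rw [rm_in (by simp), hR]
    simp only [Finset.mem_insert, Finset.mem_singleton]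
    grind
  have cp' : flp c {u, t, a, b, s} p = true := by rw [flp_not pX, cp]
  have ca' : flp c {u, t, a, b, s} a = false := by rw [flp_in (by simp), ca]; rfl
  refine ⟨Finset.univ, Blk.of2 (Finset.subset_univ _) dX (comp3 npq cp' Rp Rs Rq)
    (comp3 nab ca' Ra Rw Rb) (fun _ => Finset.mem_univ _) (fun _ => Finset.mem_univ _) ?_⟩
  intro y h1 h2
  have y1 : y ≠ p := h1 0
  have y2 : y ≠ s := h1 1
  have y3 : y ≠ q := h1 2
  have y4 : y ≠ a := h2 0
  have y5 : y ≠ w := h2 1
  have y6 : y ≠ b := h2 2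
  by_cases yu : y = u
  · subst yu
    rw [mu_eq_zero]
    · omega
    intro x
    rw [rm_in (by simp), hR]
    simp only [Finset.mem_insert, Finset.mem_singleton]
    grind
  by_cases yt : y = t
  · subst yt
    rw [mu_eq_zero]
    · omega
    intro x
    rw [rm_in (by simp), hR]
    simp only [Finset.mem_insert, Finset.mem_singleton]
    grind
  have yX : y ∉ ({u, t, a, b, s} : Finset V) := by
    simp only [Finset.mem_insert, Finset.mem_singleton]; grind
  refine out_le hm yX ?_
  simp only [Finset.mem_insert, Finset.mem_singleton]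
  intro x hx hyx
  have hxy := (hsym y x).1 hyx
  rcases hx with rfl | rfl | rfl | rfl | rfl
  · rcases (nu y).1 hxy with h | h | h
    · rw [h, cu, cv]
    · exact absurd h y4
    · exact absurd h y6
  · rcases (nt y).1 hxy with h | h | h
    · rw [h, ct, cr]
    · exact absurd h y4
    · exact absurd h y6
  · rcases (na y).1 hxy with h | h | h
    · exact absurd h yu
    · exact absurd h yt
    · exact absurd h y5
  · rcases (nb y).1 hxy with h | h | h
    · exact absurd h yu
    · exact absurd h yt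
    · exact absurd h y5
  · rcases (ns y).1 hxy with h | h | h
    · rw [h, cs, cm]
    · exact absurd h y1
    · exact absurd h y3

end Pool.Agent.Helper35.MC
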