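import Mathlib
import Pool.Agent.Helper35.MC.Ob

/-!
MP_4042d8_co: row SQ2 (squares).
-/

namespace Pool.Agent.Helper35.MC

open Pool.Agent.Helper27.MC Pool.Agent.Helper51.MC Pool.Agent.Helper88.MC Pool.Agent.Helper64.MC

set_option autoImplicit false
set_option linter.unusedSectionVars false
set_option linter.unusedSimpArgs false
set_option linter.unusedVariables false

/-- row SQ2 -/
theorem st_SQ2 : ST_SQ2 := by
  intro V _ _ G _ hG c hm u t a b w w' v r p q hu ht hut ha hb hw hwr hr hp hq
  obtain ⟨cu, cv, ca, cb, ⟨nu, nva, nvb, nab⟩⟩ := hu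
  obtain ⟨ct, -, -, -, ⟨nt, nra, nrb, -⟩⟩ := ht
  obtain ⟨-, -, -, cw, ⟨na, nut, nuw, ntw⟩⟩ := ha
  obtain ⟨-, -, -, cw', ⟨nb, -, nuw', ntw'⟩⟩ := hb
  obtain ⟨cr, -, cp, cq, ⟨nr, ntp, ntq, npq⟩⟩ := hr
  obtain ⟨-, mw⟩ := hw
  obtain ⟨-, mp⟩ := hp
  obtain ⟨-, mq⟩ := hq
  have hnw : ∀ x, ¬ Rm G c w x := nomate mw
  have hnp : ∀ x, ¬ Rm G c p x := nomate mp
  have hnq : ∀ x, ¬ Rm G c q x := nomate mq
  have hrm : ∀ x y, G.Adj x y → c x = c y → Rm G c x y := fun x y h e => ⟨h, e.symm⟩
  have hR : ∀ x y, Rm G c x y ↔ (G.Adj x y ∧ c y = c x) := fun _ _ => Iff.rfl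
  have hsym : ∀ x y, G.Adj x y ↔ G.Adj y x := fun x y => G.adj_comm x y
  have hirr : ∀ x, ¬ G.Adj x x := fun x => G.loopless.irrefl x
  have ruv : Rm G c u v := hrm u v ((nu v).2 (Or.inl rfl)) (by rw [cu, cv])
  have rtr : Rm G c t r := hrm t r ((nt r).2 (Or.inl rfl)) (by rw [ct, cr])
  have hvr : v ≠ r := by
    rintro rfl
    exact nut (rm_uniq (hm v) ruv.symm rtr.symm)
  have hvt : v ≠ t := by rintro rfl; exact hut ruv
  have hru : r ≠ u := by rintro rfl; exact hut rtr.symm
  have hwr' : w ≠ r := by rintro rfl; exact hnw t rtr.symm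
  have hrt : r ≠ t := rtr.ne.symm
  have hra : ¬ G.Adj r a := by rw [hsym, na]; rintro (h | h | h); exacts [hru h, hrt h, hwr' h.symm]
  have hrb : ¬ G.Adj r b := by rw [hsym, nb]; rintro (h | h | h); exacts [hru h, hrt h, hwr h.symm]
  have hpa : p ≠ a := by rintro rfl; exact hra ((nr p).2 (by simp))
  have hpb : p ≠ b := by rintro rfl; exact hrb ((nr p).2 (by simp))
  have hqa : q ≠ a := by rintro rfl; exact hra ((nr q).2 (by simp))
  have hqb : q ≠ b := by rintro rfl; exact hrb ((nr q).2 (by simp))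
  have dX : dd c ({u, a, r} : Finset V) = 1 := by
    have e1 : u ≠ a := by rintro rfl; rw [cu] at ca; cases ca
    have e2 : a ≠ r := by rintro rfl; rw [cr] at ca; cases ca
    unfold dd
    rw [Finset.sum_insert (by simp [e1, hru.symm]), Finset.sum_insert (by simp [e2]),
      Finset.sum_singleton]
    simp [cu, ca, cr]
  -- the new mono neighbours
  have pX : p ∉ ({u, a, r} : Finset V) := by
    simp only [Finset.mem_insert, Finset.mem_singleton]; grind
  have qX : q ∉ ({u, a, r} : Finset V) := by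
    simp only [Finset.mem_insert, Finset.mem_singleton]; grind
  have wX : w ∉ ({u, a, r} : Finset V) := by
    simp only [Finset.mem_insert, Finset.mem_singleton]; grind
  have tX : t ∉ ({u, a, r} : Finset V) := by
    simp only [Finset.mem_insert, Finset.mem_singleton]; grind
  have Rp : ∀ x, Rm G (flp c {u, a, r}) p x ↔ x = r := by
    intro x
    rw [rm_out pX]
    simp only [Finset.mem_insert, Finset.mem_singleton]
    grind
  have Rq : ∀ x, Rm G (flp c {u, a, r}) q x ↔ x = r := by
    intro x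
    rw [rm_out qX]
    simp only [Finset.mem_insert, Finset.mem_singleton]
    grind
  have Rw : ∀ x, Rm G (flp c {u, a, r}) w x ↔ x = a := by
    intro x
    rw [rm_out wX]
    simp only [Finset.mem_insert, Finset.mem_singleton]
    grind
  have Rt : ∀ x, Rm G (flp c {u, a, r}) t x ↔ x = a := by
    intro x
    rw [rm_out tX, hR]
    simp only [Finset.mem_insert, Finset.mem_singleton]
    grind
  have Rr : ∀ x, Rm G (flp c {u, a, r}) r x ↔ x = p ∨ x = q := by
    intro x
    rw [rm_in (by simp), hR]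
    simp only [Finset.mem_insert, Finset.mem_singleton]
    grind
  have Ra : ∀ x, Rm G (flp c {u, a, r}) a x ↔ x = t ∨ x = w := by
    intro x
    rw [rm_in (by simp), hR]
    simp only [Finset.mem_insert, Finset.mem_singleton]
    grind
  have cp' : flp c {u, a, r} p = true := by rw [flp_not pX, cp]
  have ct' : flp c {u, a, r} t = false := by rw [flp_not tX, ct]
  refine ⟨Finset.univ, Blk.of2 (Finset.subset_univ _) dX (comp3 npq cp' Rp Rr Rq)
    (comp3 ntw ct' Rt Ra Rw) (fun _ => Finset.mem_univ _) (fun _ => Finset.mem_univ _) ?_⟩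
  intro y h1 h2
  have y1 : y ≠ p := h1 0
  have y2 : y ≠ r := h1 1
  have y3 : y ≠ q := h1 2
  have y4 : y ≠ t := h2 0
  have y5 : y ≠ a := h2 1
  have y6 : y ≠ w := h2 2
  by_cases yu : y = u
  · subst yu
    refine mu_le_one (z := b) ?_
    intro x
    rw [rm_in (by simp), hR]
    simp only [Finset.mem_insert, Finset.mem_singleton]
    grind
  have yX : y ∉ ({u, a, r} : Finset V) := by
    simp only [Finset.mem_insert, Finset.mem_singleton]; grind
  by_cases yb : y = b
  · subst yb
    refine mu_le_one (z := u) ?_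
    intro x
    rw [rm_out yX, hR]
    simp only [Finset.mem_insert, Finset.mem_singleton]
    grind
  refine out_le hm yX ?_
  simp only [Finset.mem_insert, Finset.mem_singleton]
  intro x hx hyx
  have hxy := (hsym y x).1 hyx
  rcases hx with rfl | rfl | rfl
  · rcases (nu y).1 hxy with h | h | h
    · rw [h, cu, cv]
    · exact absurd h y5
    · exact absurd h yb
  · rcases (na y).1 hxy with h | h | h
    · exact absurd h yu
    · exact absurd h y4
    · exact absurd h y6
  · rcases (nr y).1 hxy with h | h | h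
    · exact absurd h y4
    · exact absurd h y1
    · exact absurd h y3

end Pool.Agent.Helper35.MC
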